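import Mathlib

set_option autoImplicit false

open Metric Set

namespace Pool.Agent.Helper380.B1

/-- recursion lemma for summability -/
theorem summable_of_rec {x y : ℕ → ℝ} {ρ : ℝ} (hρ : ρ < 1) (hρ0 : 0 ≤ ρ) (hx : ∀ n, 0 ≤ x n)
    (hy : ∀ n, 0 ≤ y n) (hsum : Summable y) (h : ∀ n, x (n + 1) ≤ ρ * x n + y n) :
    Summable x := by
  have hb : ∀ N, ∑ n ∈ Finset.range N, x n ≤ (x 0 + ∑' n, y n) / (1 - ρ) := by
    intro N
    rw [le_div_iff₀ (by linarith)]
    have h1 : ∑ n ∈ Finset.range N, x n ≤ x 0 + ρ * ∑ n ∈ Finset.range N, x n + ∑' n, y n := by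
      rcases N with _ | N
      · simp
        have h1 : 0 ≤ ∑' n, y n := tsum_nonneg hy
        have := hx 0
        linarith
      · rw [Finset.sum_range_succ']
        have h2 : ∑ n ∈ Finset.range N, x (n + 1) ≤ ∑ n ∈ Finset.range N, (ρ * x n + y n) :=
          Finset.sum_le_sum fun n _ => h n
        rw [Finset.sum_add_distrib, ← Finset.mul_sum] at h2
        have h3 : ∑ n ∈ Finset.range N, y n ≤ ∑' n, y n :=
          hsum.sum_le_tsum _ fun n _ => hy n
        have h4 : ∑ n ∈ Finset.range N, x n ≤ ∑ n ∈ Finset.range N, x (n + 1) + x 0 := by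
          rw [← Finset.sum_range_succ']
          exact Finset.sum_le_sum_of_subset_of_nonneg (Finset.range_mono (Nat.le_succ N))
            fun n _ _ => hx n
        have h5 := mul_le_mul_of_nonneg_left h4 hρ0
        linarith
    linarith
  exact summable_of_sum_range_le hx hb

/-- the polynomials `B_n` -/
noncomputable def B (a : ℕ → ℂ) (z : ℂ) : ℕ → ℂ
  | 0 => (starRingEnd ℂ) (a 0)
  | n + 1 => z * B a z n + (starRingEnd ℂ) (a (n + 1))

/-- real majorant of the `B_n` -/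
noncomputable def Bb (a : ℕ → ℂ) (r : ℝ) : ℕ → ℝ
  | 0 => ‖a 0‖
  | n + 1 => r * Bb a r n + ‖a (n + 1)‖

theorem Bb_nonneg (a : ℕ → ℂ) {r : ℝ} (hr : 0 ≤ r) (n : ℕ) : 0 ≤ Bb a r n := by
  induction n with
  | zero => exact norm_nonneg _
  | succ n ih => simp only [Bb]; positivity

theorem norm_B_le (a : ℕ → ℂ) {r : ℝ} {z : ℂ} (hz : ‖z‖ ≤ r) (n : ℕ) :
    ‖B a z n‖ ≤ Bb a r n := by
  have hr : 0 ≤ r := (norm_nonneg z).trans hz
  induction n with
  | zero => simp [B, Bb]
  | succ n ih =>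
    simp only [B, Bb]
    refine (norm_add_le _ _).trans ?_
    rw [norm_mul, RCLike.norm_conj]
    gcongr

theorem differentiable_B (a : ℕ → ℂ) (n : ℕ) : Differentiable ℂ fun z => B a z n := by
  induction n with
  | zero => simp only [B]; fun_prop
  | succ n ih => simp only [B]; fun_prop

theorem summable_Bb_sq {a : ℕ → ℂ} (ha : Summable fun n => ‖a n‖ ^ 2) {r : ℝ} (hr : 0 ≤ r)
    (hr1 : r < 1) : Summable fun n => (Bb a r n) ^ 2 := by
  set η : ℝ := (1 - r ^ 2) / 2 with hη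
  have hη0 : 0 < η := by
    have : r ^ 2 < 1 := by nlinarith
    rw [hη]; linarith
  refine summable_of_rec (ρ := r ^ 2 + η) (y := fun n => (1 + r ^ 2 / η) * ‖a (n + 1)‖ ^ 2)
    ?_ (by positivity) (fun n => sq_nonneg _) (fun n => by positivity) ?_ ?_
  · have : r ^ 2 < 1 := by nlinarith
    rw [hη]; linarith
  · exact ((summable_nat_add_iff 1).2 ha).mul_left _
  · intro n
    simp only [Bb]
    set β := Bb a r n
    set y := ‖a (n + 1)‖
    have key : 0 ≤ (η * β - r * y) ^ 2 / η := by positivity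
    have e : (η * β - r * y) ^ 2 / η = η * β ^ 2 - 2 * r * β * y + r ^ 2 / η * y ^ 2 := by
      field_simp
      ring
    rw [e] at key
    nlinarith

/-- the analytic function whose real part majorises -/
noncomputable def hfun (a : ℕ → ℂ) (z : ℂ) : ℂ :=
  ((∑' n, ‖a n‖ ^ 2 : ℝ) : ℂ) + 2 * ∑' n, a (n + 1) * (z * B a z n)

theorem term_bound (a : ℕ → ℂ) {r : ℝ} (hr1 : r < 1) {z : ℂ} (hz : ‖z‖ ≤ r) (n : ℕ) :
    ‖a (n + 1) * (z * B a z n)‖ ≤ ‖a (n + 1)‖ ^ 2 + (Bb a r n) ^ 2 := by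
  have hr : 0 ≤ r := (norm_nonneg z).trans hz
  rw [norm_mul, norm_mul]
  have h1 := norm_B_le a hz n
  have h2 := norm_nonneg (B a z n)
  have h3 : ‖z‖ * ‖B a z n‖ ≤ Bb a r n := by
    calc ‖z‖ * ‖B a z n‖ ≤ 1 * ‖B a z n‖ := by
          gcongr
          exact hz.trans hr1.le
      _ ≤ Bb a r n := by rw [one_mul]; exact h1
  have h4 := Bb_nonneg a hr n
  calc ‖a (n + 1)‖ * (‖z‖ * ‖B a z n‖) ≤ ‖a (n + 1)‖ * Bb a r n := by gcongr
    _ ≤ ‖a (n + 1)‖ ^ 2 + (Bb a r n) ^ 2 := by nlinarith [sq_nonneg (‖a (n + 1)‖ - Bb a r n)]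

theorem summable_term {a : ℕ → ℂ} (ha : Summable fun n => ‖a n‖ ^ 2) {z : ℂ} (hz : ‖z‖ < 1) :
    Summable fun n => a (n + 1) * (z * B a z n) :=
  Summable.of_norm_bounded (((summable_nat_add_iff 1).2 ha).add (summable_Bb_sq ha (norm_nonneg z) hz))
    fun n => term_bound a hz le_rfl n

theorem differentiableOn_hfun {a : ℕ → ℂ} (ha : Summable fun n => ‖a n‖ ^ 2) :
    DifferentiableOn ℂ (hfun a) (ball 0 1) := by
  intro z hz
  rw [mem_ball_zero_iff] at hz
  obtain ⟨r, hzr, hr1⟩ := exists_between hz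
  have hr : 0 ≤ r := (norm_nonneg z).trans hzr.le
  have h1 : DifferentiableOn ℂ (fun w => ∑' n, a (n + 1) * (w * B a w n)) (ball 0 r) := by
    refine Complex.differentiableOn_tsum_of_summable_norm
      (((summable_nat_add_iff 1).2 ha).add (summable_Bb_sq ha hr hr1)) (fun n => ?_) isOpen_ball
      fun n w hw => term_bound a hr1 (mem_ball_zero_iff.1 hw).le n
    have := differentiable_B a n
    fun_prop
  have h2 : DifferentiableAt ℂ (fun w => ∑' n, a (n + 1) * (w * B a w n)) z :=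
    (h1 z (mem_ball_zero_iff.2 hzr)).differentiableAt (isOpen_ball.mem_nhds (mem_ball_zero_iff.2 hzr))
  unfold hfun
  exact ((h2.const_mul 2).const_add _).differentiableWithinAt

theorem summable_B_sq {a : ℕ → ℂ} (ha : Summable fun n => ‖a n‖ ^ 2) {z : ℂ} (hz : ‖z‖ < 1) :
    Summable fun n => ‖B a z n‖ ^ 2 := by
  refine Summable.of_nonneg_of_le (fun n => sq_nonneg _) (fun n => ?_)
    (summable_Bb_sq ha (norm_nonneg z) hz)
  have := norm_B_le a (le_refl ‖z‖) n
  gcongr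

theorem re_hfun {a : ℕ → ℂ} (ha : Summable fun n => ‖a n‖ ^ 2) {z : ℂ} (hz : ‖z‖ < 1) :
    (hfun a z).re = (1 - ‖z‖ ^ 2) * ∑' n, ‖B a z n‖ ^ 2 := by
  have hT := summable_B_sq ha hz
  have hterm := summable_term ha hz
  have hrec : ∀ n, 2 * (a (n + 1) * (z * B a z n)).re =
      ‖B a z (n + 1)‖ ^ 2 - ‖z‖ ^ 2 * ‖B a z n‖ ^ 2 - ‖a (n + 1)‖ ^ 2 := by
    intro n
    simp only [B]
    rw [← Complex.normSq_eq_norm_sq, ← Complex.normSq_eq_norm_sq, ← Complex.normSq_eq_norm_sq,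
      ← Complex.normSq_eq_norm_sq, Complex.normSq_add, Complex.normSq_mul, Complex.normSq_conj,
      Complex.conj_conj]
    have : z * B a z n * a (n + 1) = a (n + 1) * (z * B a z n) := by ring
    rw [this]
    ring
  unfold hfun
  rw [Complex.add_re, Complex.ofReal_re, Complex.mul_re]
  simp only [Complex.re_ofNat, Complex.im_ofNat, zero_mul, sub_zero]
  rw [Complex.re_tsum hterm, ← tsum_mul_left]
  simp_rw [hrec]
  have hT1 := (summable_nat_add_iff 1).2 hT
  have hA1 := (summable_nat_add_iff 1).2 ha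
  rw [Summable.tsum_sub (hT1.sub (hT.mul_left _)) hA1, Summable.tsum_sub hT1 (hT.mul_left _),
    tsum_mul_left]
  have e1 := hT.sum_add_tsum_nat_add 1
  have e2 := ha.sum_add_tsum_nat_add 1
  simp only [Finset.range_one, Finset.sum_singleton] at e1 e2
  have e3 : ‖B a z 0‖ = ‖a 0‖ := by simp [B]
  rw [e3] at e1
  linarith

theorem sq_norm_le {a : ℕ → ℂ} (ha : Summable fun n => ‖a n‖ ^ 2) {z : ℂ} (hz : ‖z‖ < 1)
    {f : ℂ} (hf : HasSum (fun n => a n * z ^ n) f) : ‖f‖ ^ 2 ≤ (hfun a z).re := by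
  have hT := summable_B_sq ha hz
  have hr0 := norm_nonneg z
  have hz2 : ‖z‖ ^ 2 < 1 := by nlinarith
  -- the series E
  have hgeo : Summable fun n => (‖z‖ ^ 2) ^ n := summable_geometric_of_lt_one (by positivity) hz2
  have hEs : Summable fun n => (starRingEnd ℂ) (B a z n) * z ^ n := by
    refine Summable.of_norm_bounded (hT.add hgeo) fun n => ?_
    rw [norm_mul, RCLike.norm_conj, norm_pow, ← pow_mul, mul_comm 2 n, pow_mul]
    nlinarith [sq_nonneg (‖B a z n‖ - ‖z‖ ^ n), sq_nonneg (‖B a z n‖), sq_nonneg (‖z‖ ^ n)]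
  set E := ∑' n, (starRingEnd ℂ) (B a z n) * z ^ n with hE
  have hEE : E = (‖z‖ ^ 2 : ℝ) * E + f := by
    have e1 := hEs.sum_add_tsum_nat_add 1
    have e2 := hf.summable.sum_add_tsum_nat_add 1
    simp only [Finset.range_one, Finset.sum_singleton, pow_zero, mul_one] at e1 e2
    rw [hf.tsum_eq] at e2
    have e3 : ∀ n, (starRingEnd ℂ) (B a z (n + 1)) * z ^ (n + 1) =
        ((‖z‖ ^ 2 : ℝ) : ℂ) * ((starRingEnd ℂ) (B a z n) * z ^ n) + a (n + 1) * z ^ (n + 1) := by
      intro n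
      simp only [B, map_add, map_mul, Complex.conj_conj]
      have : ((‖z‖ ^ 2 : ℝ) : ℂ) = (starRingEnd ℂ) z * z := by
        rw [← Complex.normSq_eq_norm_sq, Complex.normSq_eq_conj_mul_self]
      rw [this]
      ring
    simp_rw [e3] at e1
    rw [Summable.tsum_add (hEs.mul_left _) ((summable_nat_add_iff 1).2 hf.summable),
      tsum_mul_left, ← hE] at e1
    have e4 : (starRingEnd ℂ) (B a z 0) = a 0 := by simp [B]
    rw [e4] at e1
    linear_combination e2 - e1
  have hfE : f = ((1 - ‖z‖ ^ 2 : ℝ) : ℂ) * E := by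
    have : f = E - (‖z‖ ^ 2 : ℝ) * E := by
      nth_rewrite 1 [hEE]
      ring
    rw [this]
    push_cast
    ring
  rw [re_hfun ha hz, hfE, norm_mul, Complex.norm_real, mul_pow, Real.norm_eq_abs, sq_abs]
  set q := 1 - ‖z‖ ^ 2 with hq
  have hq0 : 0 < q := by rw [hq]; linarith
  -- Cauchy-Schwarz
  have hCS : q * ‖E‖ ^ 2 ≤ ∑' n, ‖B a z n‖ ^ 2 := by
    have hterm : ∀ n, 2 * q * ((starRingEnd ℂ) E * ((starRingEnd ℂ) (B a z n) * z ^ n)).re -
        q ^ 2 * ‖E‖ ^ 2 * (‖z‖ ^ 2) ^ n ≤ ‖B a z n‖ ^ 2 := by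
      intro n
      have h0 : 0 ≤ Complex.normSq ((starRingEnd ℂ) (B a z n) - q * E * (starRingEnd ℂ) z ^ n) :=
        Complex.normSq_nonneg _
      rw [Complex.normSq_sub, Complex.normSq_conj, Complex.normSq_mul, Complex.normSq_mul,
        Complex.normSq_ofReal, map_mul, map_mul, map_pow, map_pow, Complex.conj_conj,
        Complex.normSq_conj, Complex.conj_ofReal, Complex.normSq_eq_norm_sq,
        Complex.normSq_eq_norm_sq, Complex.normSq_eq_norm_sq] at h0
      have e : ((starRingEnd ℂ) (B a z n) * (q * (starRingEnd ℂ) E * z ^ n)) =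
          (q : ℂ) * ((starRingEnd ℂ) E * ((starRingEnd ℂ) (B a z n) * z ^ n)) := by ring
      rw [e, Complex.re_ofReal_mul] at h0
      linarith
    have hs1 : Summable fun n => 2 * q * ((starRingEnd ℂ) E * ((starRingEnd ℂ) (B a z n) * z ^ n)).re :=
      ((Complex.hasSum_re (hEs.mul_left _).hasSum).summable).mul_left _
    have hs2 : Summable fun n => q ^ 2 * ‖E‖ ^ 2 * (‖z‖ ^ 2) ^ n := hgeo.mul_left _
    have h1 := Summable.tsum_le_tsum hterm (hs1.sub hs2) hT
    rw [Summable.tsum_sub hs1 hs2, tsum_mul_left, tsum_mul_left,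
      tsum_geometric_of_lt_one (by positivity) hz2, ← Complex.re_tsum (hEs.mul_left _),
      tsum_mul_left, ← hE] at h1
    have e : ((starRingEnd ℂ) E * E).re = ‖E‖ ^ 2 := by
      rw [← Complex.normSq_eq_conj_mul_self, Complex.ofReal_re, Complex.normSq_eq_norm_sq]
    rw [e] at h1
    have e2 : q ^ 2 * ‖E‖ ^ 2 * (1 - ‖z‖ ^ 2)⁻¹ = q * ‖E‖ ^ 2 := by
      rw [← hq]
      field_simp
    rw [e2] at h1
    linarith
  calc q ^ 2 * ‖E‖ ^ 2 = q * (q * ‖E‖ ^ 2) := by ring
    _ ≤ q * ∑' n, ‖B a z n‖ ^ 2 := by gcongr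

/-! ### Bessel inequality for circle means -/

open Real in
/-- the circle mean of a function -/
noncomputable def mean (f : ℂ → ℂ) (r : ℝ) : ℝ :=
  ∫ θ in (0 : ℝ)..(2 * π), ‖f ((r : ℂ) * Complex.exp ((θ : ℂ) * Complex.I))‖ ^ 2

open Real in
theorem integral_exp_int {m : ℤ} (hm : m ≠ 0) :
    ∫ θ in (0 : ℝ)..(2 * π), Complex.exp ((m : ℂ) * ((θ : ℂ) * Complex.I)) = 0 := by
  have h : ∀ θ : ℝ, Complex.exp ((m : ℂ) * ((θ : ℂ) * Complex.I)) =
      Complex.exp (((m : ℂ) * Complex.I) * (θ : ℂ)) := fun θ => by ring_nf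
  simp_rw [h]
  rw [integral_exp_mul_complex (by
    simp only [ne_eq, mul_eq_zero, Int.cast_eq_zero, Complex.I_ne_zero, or_false]
    exact hm)]
  have e : Complex.exp ((m : ℂ) * Complex.I * ((2 * π : ℝ) : ℂ)) = 1 := by
    rw [Complex.exp_eq_one_iff]
    exact ⟨m, by push_cast; ring⟩
  rw [e]
  simp

open Real in
theorem coeff_integral {a : ℕ → ℂ} {F : ℝ → ℂ} {r : ℝ} (hr0 : 0 ≤ r)
    (hs : Summable fun n => ‖a n‖ * r ^ n)
    (hF : ∀ θ : ℝ, HasSum (fun n => a n * ((r : ℂ) * Complex.exp ((θ : ℂ) * Complex.I)) ^ n) (F θ))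
    (m : ℕ) :
    ∫ θ in (0 : ℝ)..(2 * π), F θ * Complex.exp ((-(m : ℤ) : ℤ) * ((θ : ℂ) * Complex.I)) =
      2 * π * (a m * (r : ℂ) ^ m) := by
  have hexp : ∀ (n : ℕ) (θ : ℝ), a n * ((r : ℂ) * Complex.exp ((θ : ℂ) * Complex.I)) ^ n *
      Complex.exp ((-(m : ℤ) : ℤ) * ((θ : ℂ) * Complex.I)) =
      a n * (r : ℂ) ^ n * Complex.exp ((((n : ℤ) - (m : ℤ) : ℤ) : ℂ) * ((θ : ℂ) * Complex.I)) := by
    intro n θ
    rw [mul_pow, ← Complex.exp_nat_mul, mul_assoc (a n), mul_assoc (_ ^ n), ← Complex.exp_add,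
      ← mul_assoc]
    congr 2
    push_cast
    ring
  have hsum : HasSum (fun n => ∫ θ in (0 : ℝ)..(2 * π), a n * (r : ℂ) ^ n *
      Complex.exp ((((n : ℤ) - (m : ℤ) : ℤ) : ℂ) * ((θ : ℂ) * Complex.I)))
      (∫ θ in (0 : ℝ)..(2 * π), F θ * Complex.exp ((-(m : ℤ) : ℤ) * ((θ : ℂ) * Complex.I))) := by
    refine intervalIntegral.hasSum_integral_of_dominated_convergence (fun n _ => ‖a n‖ * r ^ n)
      (fun n => ?_) (fun n => ?_) ?_ ?_ ?_
    · exact (by fun_prop : Continuous _).aestronglyMeasurable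
    · refine Filter.Eventually.of_forall fun θ _ => ?_
      rw [norm_mul, norm_mul, norm_pow, Complex.norm_real, Real.norm_eq_abs, abs_of_nonneg hr0]
      have : ((((n : ℤ) - (m : ℤ) : ℤ) : ℂ) * ((θ : ℂ) * Complex.I)) =
          (((((n : ℤ) - (m : ℤ) : ℤ) : ℝ) * θ : ℝ) : ℂ) * Complex.I := by push_cast; ring
      rw [this, Complex.norm_exp_ofReal_mul_I, mul_one]
    · exact Filter.Eventually.of_forall fun θ _ => hs
    · exact intervalIntegrable_const
    · refine Filter.Eventually.of_forall fun θ _ => ?_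
      have := (hF θ).mul_right (Complex.exp ((-(m : ℤ) : ℤ) * ((θ : ℂ) * Complex.I)))
      simp_rw [hexp] at this
      exact this
  have hval : ∀ n, ∫ θ in (0 : ℝ)..(2 * π), a n * (r : ℂ) ^ n *
      Complex.exp ((((n : ℤ) - (m : ℤ) : ℤ) : ℂ) * ((θ : ℂ) * Complex.I)) =
      if n = m then 2 * π * (a m * (r : ℂ) ^ m) else 0 := by
    intro n
    rw [intervalIntegral.integral_const_mul]
    split_ifs with h
    · subst h
      simp
      ring
    · rw [integral_exp_int (by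
        intro h0
        apply h
        have : (n : ℤ) = m := by linarith
        exact_mod_cast this), mul_zero]
  simp_rw [hval] at hsum
  exact hsum.unique (hasSum_ite_eq m _)

open Real in
theorem bessel {f : ℂ → ℂ} {a : ℕ → ℂ} (hd : DifferentiableOn ℂ f (ball 0 1))
    (hf : ∀ z ∈ ball (0 : ℂ) 1, HasSum (fun n => a n * z ^ n) (f z)) {r : ℝ} (hr0 : 0 ≤ r)
    (hr1 : r < 1) (N : ℕ) :
    ∑ n ∈ Finset.range N, 2 * π * (‖a n‖ ^ 2 * r ^ (2 * n)) ≤ mean f r := by
  have hball : ∀ θ : ℝ, (r : ℂ) * Complex.exp ((θ : ℂ) * Complex.I) ∈ ball (0 : ℂ) 1 := by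
    intro θ
    rw [mem_ball_zero_iff, norm_mul, Complex.norm_exp_ofReal_mul_I, mul_one, Complex.norm_real,
      Real.norm_eq_abs, abs_of_nonneg hr0]
    exact hr1
  set F : ℝ → ℂ := fun θ => f ((r : ℂ) * Complex.exp ((θ : ℂ) * Complex.I)) with hFdef
  have hFc : Continuous F := by
    refine hd.continuousOn.comp_continuous (by fun_prop) hball
  have hs : Summable fun n => ‖a n‖ * r ^ n := by
    have h1 := (hf (r : ℂ) (by
      rw [mem_ball_zero_iff, Complex.norm_real, Real.norm_eq_abs, abs_of_nonneg hr0]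
      exact hr1)).summable.norm
    refine h1.congr fun n => ?_
    rw [norm_mul, norm_pow, Complex.norm_real, Real.norm_eq_abs, abs_of_nonneg hr0]
  -- the partial sum and its conjugate
  set P : ℝ → ℂ := fun θ => ∑ n ∈ Finset.range N,
    a n * ((r : ℂ) * Complex.exp ((θ : ℂ) * Complex.I)) ^ n with hPdef
  set Q : ℝ → ℂ := fun θ => ∑ n ∈ Finset.range N, (starRingEnd ℂ) (a n) * (r : ℂ) ^ n *
    Complex.exp ((-(n : ℤ) : ℤ) * ((θ : ℂ) * Complex.I)) with hQdef
  have hPc : Continuous P := by rw [hPdef]; fun_prop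
  have hQc : Continuous Q := by rw [hQdef]; fun_prop
  have hPQ : ∀ θ, (starRingEnd ℂ) (P θ) = Q θ := by
    intro θ
    simp only [hPdef, hQdef, map_sum]
    refine Finset.sum_congr rfl fun n _ => ?_
    rw [map_mul, map_pow, map_mul, Complex.conj_ofReal, ← Complex.exp_conj, map_mul,
      Complex.conj_ofReal, Complex.conj_I, mul_pow, ← Complex.exp_nat_mul, mul_assoc]
    congr 3
    push_cast
    ring
  have hint : ∀ (G : ℝ → ℂ), Continuous G →
      (∀ m : ℕ, m < N → ∫ θ in (0 : ℝ)..(2 * π), G θ *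
        Complex.exp ((-(m : ℤ) : ℤ) * ((θ : ℂ) * Complex.I)) = 2 * π * (a m * (r : ℂ) ^ m)) →
      ∫ θ in (0 : ℝ)..(2 * π), G θ * Q θ =
        ((∑ n ∈ Finset.range N, 2 * π * (‖a n‖ ^ 2 * r ^ (2 * n)) : ℝ) : ℂ) := by
    intro G hG hcoef
    simp only [hQdef, Finset.mul_sum]
    rw [intervalIntegral.integral_finsetSum]
    · rw [Complex.ofReal_sum]
      refine Finset.sum_congr rfl fun n hn => ?_
      have h1 : ∀ θ : ℝ, G θ * ((starRingEnd ℂ) (a n) * (r : ℂ) ^ n *
          Complex.exp ((-(n : ℤ) : ℤ) * ((θ : ℂ) * Complex.I))) =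
          ((starRingEnd ℂ) (a n) * (r : ℂ) ^ n) * (G θ *
          Complex.exp ((-(n : ℤ) : ℤ) * ((θ : ℂ) * Complex.I))) := fun θ => by ring
      rw [intervalIntegral.integral_congr (fun θ _ => h1 θ),
        intervalIntegral.integral_const_mul, hcoef n (Finset.mem_range.1 hn)]
      have h2 : ((‖a n‖ : ℂ)) ^ 2 = (starRingEnd ℂ) (a n) * a n := by
        rw [← Complex.normSq_eq_conj_mul_self, Complex.normSq_eq_norm_sq]
        push_cast
        ring
      push_cast
      rw [h2]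
      ring
    · intro n _
      exact (by fun_prop : Continuous _).intervalIntegrable _ _
  have h1 : ∫ θ in (0 : ℝ)..(2 * π), F θ * Q θ =
      ((∑ n ∈ Finset.range N, 2 * π * (‖a n‖ ^ 2 * r ^ (2 * n)) : ℝ) : ℂ) :=
    hint F hFc fun m _ => coeff_integral hr0 hs (fun θ => hf _ (hball θ)) m
  have h2 : ∫ θ in (0 : ℝ)..(2 * π), P θ * Q θ =
      ((∑ n ∈ Finset.range N, 2 * π * (‖a n‖ ^ 2 * r ^ (2 * n)) : ℝ) : ℂ) := by
    refine hint P hPc fun m hm => ?_
    have h3 := coeff_integral (a := fun n => if n < N then a n else 0) (F := P) hr0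
      (by
        refine Summable.of_nonneg_of_le (fun n => by positivity) (fun n => ?_) hs
        split_ifs
        · exact le_rfl
        · rw [norm_zero, zero_mul]; positivity)
      (fun θ => by
        have h4 : P θ = ∑ n ∈ Finset.range N, (if n < N then a n else 0) *
            ((r : ℂ) * Complex.exp ((θ : ℂ) * Complex.I)) ^ n := by
          simp only [hPdef]
          refine Finset.sum_congr rfl fun n hn => ?_
          rw [if_pos (Finset.mem_range.1 hn)]
        rw [h4]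
        refine hasSum_sum_of_ne_finset_zero fun n hn => ?_
        rw [if_neg (fun h => hn (Finset.mem_range.2 h)), zero_mul]) m
    simp only [if_pos hm] at h3
    exact h3
  set S : ℝ := ∑ n ∈ Finset.range N, 2 * π * (‖a n‖ ^ 2 * r ^ (2 * n)) with hS
  -- pointwise inequality
  have hpt : ∀ θ : ℝ, 2 * (F θ * Q θ).re - (P θ * Q θ).re ≤ ‖F θ‖ ^ 2 := by
    intro θ
    have h0 : 0 ≤ Complex.normSq (F θ - P θ) := Complex.normSq_nonneg _
    rw [Complex.normSq_sub, hPQ, Complex.normSq_eq_norm_sq] at h0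
    have h3 : (P θ * Q θ).re = Complex.normSq (P θ) := by
      rw [← hPQ, Complex.mul_conj, Complex.ofReal_re]
    linarith
  have hre : ∀ (G : ℝ → ℂ), Continuous G → ∫ θ in (0 : ℝ)..(2 * π), (G θ).re =
      (∫ θ in (0 : ℝ)..(2 * π), G θ).re := by
    intro G hG
    exact Complex.reCLM.intervalIntegral_comp_comm (hG.intervalIntegrable _ _)
  have hI : ∫ θ in (0 : ℝ)..(2 * π), (2 * (F θ * Q θ).re - (P θ * Q θ).re) = S := by
    have e1 := hre (fun θ => F θ * Q θ) (hFc.mul hQc)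
    have e2 := hre (fun θ => P θ * Q θ) (hPc.mul hQc)
    rw [h1, Complex.ofReal_re] at e1
    rw [h2, Complex.ofReal_re] at e2
    rw [intervalIntegral.integral_sub, intervalIntegral.integral_const_mul, e1, e2]
    · ring
    · exact (by fun_prop : Continuous _).intervalIntegrable _ _
    · exact (by fun_prop : Continuous _).intervalIntegrable _ _
  rw [← hI]
  unfold mean
  refine intervalIntegral.integral_mono_on (by positivity) ?_ ?_ fun θ _ => hpt θ
  · exact (by fun_prop : Continuous _).intervalIntegrable _ _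
  · exact (hFc.norm.pow 2).intervalIntegrable _ _

/-- A function with bounded circle means has a majorant that is the real part of an analytic
function. -/
theorem exists_majorant {f : ℂ → ℂ} (hd : DifferentiableOn ℂ f (ball 0 1)) {M : ℝ}
    (hM : ∀ r : ℝ, 0 ≤ r → r < 1 → mean f r ≤ M) :
    ∃ h : ℂ → ℂ, DifferentiableOn ℂ h (ball 0 1) ∧
      ∀ z ∈ ball (0 : ℂ) 1, 1 ≤ (h z).re ∧ ‖f z‖ ^ 2 ≤ (h z).re := by
  set a : ℕ → ℂ := fun n => ((n.factorial : ℂ))⁻¹ * iteratedDeriv n f 0 with ha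
  have hf : ∀ z ∈ ball (0 : ℂ) 1, HasSum (fun n => a n * z ^ n) (f z) := by
    intro z hz
    have h1 := Complex.hasSum_taylorSeries_on_ball hd hz
    simp only [sub_zero, smul_eq_mul] at h1
    have h2 : (fun n => a n * z ^ n) =
        fun n : ℕ => ((n.factorial : ℂ))⁻¹ * (z ^ n * iteratedDeriv n f 0) := by
      funext n
      simp only [ha]
      ring
    rw [h2]
    exact h1
  have hsum : Summable fun n => ‖a n‖ ^ 2 := by
    refine summable_of_sum_range_le (c := M / (2 * Real.pi)) (fun n => sq_nonneg _) fun N => ?_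
    rw [le_div_iff₀ (by positivity)]
    -- let r tend to one
    have h1 : ∀ r : ℝ, 0 ≤ r → r < 1 →
        ∑ n ∈ Finset.range N, 2 * Real.pi * (‖a n‖ ^ 2 * r ^ (2 * n)) ≤ M :=
      fun r hr0 hr1 => (bessel hd hf hr0 hr1 N).trans (hM r hr0 hr1)
    have h2 : Filter.Tendsto (fun r : ℝ => ∑ n ∈ Finset.range N,
        2 * Real.pi * (‖a n‖ ^ 2 * r ^ (2 * n))) (nhdsWithin 1 (Iio 1))
        (nhds (∑ n ∈ Finset.range N, 2 * Real.pi * (‖a n‖ ^ 2 * 1 ^ (2 * n)))) := by
      refine Filter.Tendsto.mono_left ?_ nhdsWithin_le_nhds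
      exact (by fun_prop : Continuous fun r : ℝ => ∑ n ∈ Finset.range N,
        2 * Real.pi * (‖a n‖ ^ 2 * r ^ (2 * n))).tendsto 1
    have h3 := le_of_tendsto h2 (by
      have : Ico (0 : ℝ) 1 ∈ nhdsWithin (1 : ℝ) (Iio 1) := Ico_mem_nhdsLT (by norm_num)
      filter_upwards [this] with r hr
      exact h1 r hr.1 hr.2)
    simp only [one_pow, mul_one] at h3
    rw [← Finset.mul_sum] at h3
    linarith
  refine ⟨fun z => hfun a z + 1, (differentiableOn_hfun hsum).add_const 1, fun z hz => ?_⟩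
  have hz1 : ‖z‖ < 1 := mem_ball_zero_iff.1 hz
  have h1 := sq_norm_le hsum hz1 (hf z hz)
  rw [Complex.add_re, Complex.one_re]
  constructor
  · have := sq_nonneg ‖f z‖
    linarith
  · linarith

/-- The converse. -/
theorem mean_le_of_majorant {f h : ℂ → ℂ} (hd : DifferentiableOn ℂ f (ball 0 1))
    (hh : DifferentiableOn ℂ h (ball 0 1)) (hle : ∀ z ∈ ball (0 : ℂ) 1, ‖f z‖ ^ 2 ≤ (h z).re)
    {r : ℝ} (hr0 : 0 ≤ r) (hr1 : r < 1) : mean f r ≤ 2 * Real.pi * (h 0).re := by
  have hball : ∀ θ : ℝ, (r : ℂ) * Complex.exp ((θ : ℂ) * Complex.I) ∈ ball (0 : ℂ) 1 := by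
    intro θ
    rw [mem_ball_zero_iff, norm_mul, Complex.norm_exp_ofReal_mul_I, mul_one, Complex.norm_real,
      Real.norm_eq_abs, abs_of_nonneg hr0]
    exact hr1
  have hFc : Continuous fun θ : ℝ => f ((r : ℂ) * Complex.exp ((θ : ℂ) * Complex.I)) :=
    hd.continuousOn.comp_continuous (by fun_prop) hball
  have hHc : Continuous fun θ : ℝ => h ((r : ℂ) * Complex.exp ((θ : ℂ) * Complex.I)) :=
    hh.continuousOn.comp_continuous (by fun_prop) hball
  have hcl : DiffContOnCl ℂ h (ball 0 |r|) := by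
    rw [abs_of_nonneg hr0]
    refine DifferentiableOn.diffContOnCl (hh.mono ?_)
    refine closure_ball_subset_closedBall.trans (closedBall_subset_ball hr1)
  have h1 := hcl.circleAverage
  rw [Real.circleAverage] at h1
  simp only [circleMap, zero_add] at h1
  have h2 : ∫ θ in (0 : ℝ)..(2 * Real.pi), h ((r : ℂ) * Complex.exp ((θ : ℂ) * Complex.I)) =
      (2 * Real.pi) • h 0 := by
    rw [← h1, smul_smul, mul_inv_cancel₀ (by positivity), one_smul]
  have h3 : ∫ θ in (0 : ℝ)..(2 * Real.pi), (h ((r : ℂ) * Complex.exp ((θ : ℂ) * Complex.I))).re =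
      2 * Real.pi * (h 0).re := by
    have := Complex.reCLM.intervalIntegral_comp_comm (hHc.intervalIntegrable (μ := MeasureTheory.volume) 0 (2 * Real.pi))
    simp only [Complex.reCLM_apply] at this
    rw [this, h2]
    simp
  rw [← h3]
  unfold mean
  refine intervalIntegral.integral_mono_on (by positivity) ?_ ?_ fun θ _ => hle _ (hball θ)
  · exact (hFc.norm.pow 2).intervalIntegrable _ _
  · exact (Complex.continuous_re.comp hHc).intervalIntegrable _ _

end Pool.Agent.Helper380.B1
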