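import Mathlib

set_option autoImplicit false

open Metric Set

namespace Pool.Agent.Helper380.B2

/-- the open first quadrant -/
def Q : Set ℂ := {q | 0 < q.re ∧ 0 < q.im}

theorem isOpen_Q : IsOpen Q :=
  (isOpen_lt continuous_const Complex.continuous_re).inter
    (isOpen_lt continuous_const Complex.continuous_im)

/-- conformal map from the quadrant to the disc -/
noncomputable def psi (q : ℂ) : ℂ := (q ^ 2 - Complex.I) / (q ^ 2 + Complex.I)

/-- its inverse -/
noncomputable def sigma (z : ℂ) : ℂ := (Complex.I * (1 + z) / (1 - z)) ^ (2⁻¹ : ℂ)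

theorem sq_im_pos {q : ℂ} (hq : q ∈ Q) : 0 < (q ^ 2).im := by
  obtain ⟨h1, h2⟩ := hq
  rw [sq, Complex.mul_im]
  nlinarith [mul_pos h1 h2]

theorem den_ne {q : ℂ} (hq : q ∈ Q) : q ^ 2 + Complex.I ≠ 0 := by
  intro h
  have h1 := congrArg Complex.im h
  rw [Complex.add_im, Complex.I_im, Complex.zero_im] at h1
  have := sq_im_pos hq
  linarith

theorem psi_mem {q : ℂ} (hq : q ∈ Q) : psi q ∈ ball (0 : ℂ) 1 := by
  rw [mem_ball_zero_iff, psi, norm_div, div_lt_one (norm_pos_iff.2 (den_ne hq))]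
  have h := sq_im_pos hq
  rw [Complex.norm_def, Complex.norm_def]
  refine Real.sqrt_lt_sqrt (Complex.normSq_nonneg _) ?_
  rw [Complex.normSq_apply, Complex.normSq_apply]
  simp only [Complex.sub_re, Complex.add_re, Complex.sub_im, Complex.add_im, Complex.I_re,
    Complex.I_im]
  nlinarith

theorem one_sub_ne {z : ℂ} (hz : z ∈ ball (0 : ℂ) 1) : 1 - z ≠ 0 := by
  intro h
  rw [mem_ball_zero_iff] at hz
  have : z = 1 := by linear_combination -h
  rw [this] at hz
  simp at hz

theorem w_im_pos {z : ℂ} (hz : z ∈ ball (0 : ℂ) 1) : 0 < (Complex.I * (1 + z) / (1 - z)).im := by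
  have h1 := one_sub_ne hz
  rw [mem_ball_zero_iff] at hz
  have h2 : 0 < Complex.normSq (1 - z) := Complex.normSq_pos.2 h1
  have h3 : Complex.normSq z < 1 := by
    rw [Complex.normSq_eq_norm_sq]
    have := norm_nonneg z
    nlinarith
  rw [Complex.normSq_apply] at h3
  rw [Complex.div_im]
  simp only [Complex.mul_im, Complex.mul_re, Complex.I_re, Complex.I_im, Complex.add_re,
    Complex.add_im, Complex.sub_re, Complex.sub_im, Complex.one_re, Complex.one_im]
  rw [← sub_div]
  refine div_pos ?_ h2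
  nlinarith

theorem sigma_mem {z : ℂ} (hz : z ∈ ball (0 : ℂ) 1) : sigma z ∈ Q := by
  have h := w_im_pos hz
  set w := Complex.I * (1 + z) / (1 - z) with hw
  have hw0 : w ≠ 0 := by
    intro h0
    rw [h0] at h
    simp at h
  have harg : 0 < w.arg ∧ w.arg < Real.pi := by
    constructor
    · rcases (Complex.arg_nonneg_iff.2 h.le).lt_or_eq with h1 | h1
      · exact h1
      · exfalso
        have := (Complex.arg_eq_zero_iff.1 h1.symm).2
        linarith
    · exact Complex.arg_lt_pi_iff.2 (Or.inr h.ne')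
  have hs : sigma z = Complex.exp (Complex.log w * 2⁻¹) := by
    rw [sigma, ← hw, Complex.cpow_def_of_ne_zero hw0]
  have him : (Complex.log w * 2⁻¹).im = w.arg / 2 := by
    rw [← div_eq_mul_inv, Complex.div_ofNat_im, Complex.log_im]
  constructor
  · rw [hs, Complex.exp_re, him]
    refine mul_pos (Real.exp_pos _) (Real.cos_pos_of_mem_Ioo ⟨?_, ?_⟩)
    · linarith [Real.pi_pos]
    · linarith
  · rw [hs, Complex.exp_im, him]
    refine mul_pos (Real.exp_pos _) (Real.sin_pos_of_pos_of_lt_pi ?_ ?_)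
    · linarith
    · linarith

theorem psi_sigma {z : ℂ} (hz : z ∈ ball (0 : ℂ) 1) : psi (sigma z) = z := by
  have h1 := one_sub_ne hz
  have hsq : sigma z ^ 2 = Complex.I * (1 + z) / (1 - z) := by
    rw [sigma]
    have := Complex.cpow_nat_inv_pow (Complex.I * (1 + z) / (1 - z)) (n := 2) (by norm_num)
    push_cast at this
    exact this
  have h2 : sigma z ^ 2 + Complex.I ≠ 0 := den_ne (sigma_mem hz)
  rw [psi, div_eq_iff h2, hsq]
  field_simp
  ring

theorem sigma_psi {q : ℂ} (hq : q ∈ Q) : sigma (psi q) = q := by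
  have h1 := den_ne hq
  have h2 : 1 - psi q ≠ 0 := one_sub_ne (psi_mem hq)
  have h3 : Complex.I * (1 + psi q) / (1 - psi q) = q ^ 2 := by
    rw [div_eq_iff h2, psi]
    field_simp
    ring
  rw [sigma, h3]
  exact Complex.sq_cpow_two_inv hq.1

theorem differentiableOn_psi : DifferentiableOn ℂ psi Q := by
  intro q hq
  have h1 : DifferentiableAt ℂ (fun q : ℂ => q ^ 2 - Complex.I) q := by fun_prop
  have h2 : DifferentiableAt ℂ (fun q : ℂ => q ^ 2 + Complex.I) q := by fun_prop
  exact (h1.div h2 (den_ne hq)).differentiableWithinAt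

theorem differentiableOn_sigma : DifferentiableOn ℂ sigma (ball 0 1) := by
  intro z hz
  unfold sigma
  refine DifferentiableAt.differentiableWithinAt ?_
  refine DifferentiableAt.cpow_const ?_ (Or.inr (w_im_pos hz).ne')
  have h1 : DifferentiableAt ℂ (fun z : ℂ => Complex.I * (1 + z)) z := by fun_prop
  have h2 : DifferentiableAt ℂ (fun z : ℂ => 1 - z) z := by fun_prop
  exact h1.div h2 (one_sub_ne hz)

/-- analytic functions on the quadrant have primitives -/
theorem exists_primitive {G : ℂ → ℂ} (hG : DifferentiableOn ℂ G Q) :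
    ∃ C : ℂ → ℂ, ∀ q ∈ Q, HasDerivAt C (G q) q := by
  have hs := differentiableOn_sigma
  have hk : DifferentiableOn ℂ (fun z => G (sigma z) * deriv sigma z) (ball 0 1) := by
    refine DifferentiableOn.mul ?_ (hs.deriv isOpen_ball)
    exact hG.comp hs fun z hz => sigma_mem hz
  obtain ⟨K, hK⟩ := hk.isExactOn_ball
  refine ⟨fun q => K (psi q), fun q hq => ?_⟩
  have hpsi : HasDerivAt psi (deriv psi q) q :=
    ((differentiableOn_psi q hq).differentiableAt (isOpen_Q.mem_nhds hq)).hasDerivAt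
  have hsig : HasDerivAt sigma (deriv sigma (psi q)) (psi q) :=
    ((hs _ (psi_mem hq)).differentiableAt (isOpen_ball.mem_nhds (psi_mem hq))).hasDerivAt
  have h1 : HasDerivAt (fun q => K (psi q))
      (G (sigma (psi q)) * deriv sigma (psi q) * deriv psi q) q :=
    (hK (psi q) (psi_mem hq)).comp q hpsi
  have h2 := hsig.comp q hpsi
  have h3 : HasDerivAt (sigma ∘ psi) 1 q := by
    refine (hasDerivAt_id q).congr_of_eventuallyEq ?_
    filter_upwards [isOpen_Q.mem_nhds hq] with w hw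
    exact sigma_psi hw
  have h4 : deriv sigma (psi q) * deriv psi q = 1 := h2.unique h3
  rw [sigma_psi hq, mul_assoc, h4, mul_one] at h1
  exact h1

theorem ball_subset_Q {q : ℂ} {d : ℝ} (h1 : d ≤ q.re) (h2 : d ≤ q.im) : ball q d ⊆ Q := by
  intro w hw
  rw [mem_ball, dist_eq_norm] at hw
  have h3 := (abs_lt.1 ((Complex.abs_re_le_norm (w - q)).trans_lt hw)).1
  have h4 := (abs_lt.1 ((Complex.abs_im_le_norm (w - q)).trans_lt hw)).1
  rw [Complex.sub_re] at h3
  rw [Complex.sub_im] at h4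
  exact ⟨by linarith, by linarith⟩

/-- Harnack type bound for the derivative -/
theorem norm_deriv_le {H : ℂ → ℂ} (hH : DifferentiableOn ℂ H Q) (hpos : ∀ q ∈ Q, 0 < (H q).re)
    {q : ℂ} {d : ℝ} (hd : 0 < d) (h1 : d ≤ q.re) (h2 : d ≤ q.im) :
    ‖deriv H q‖ ≤ 2 * (H q).re / d := by
  have hball := ball_subset_Q h1 h2
  have hq : q ∈ Q := ⟨by linarith, by linarith⟩
  set c := H q with hc
  have hc0 : 0 < c.re := hpos q hq
  set g : ℂ → ℂ := fun w => (H w - c) / (H w + (starRingEnd ℂ) c) with hg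
  have hden : ∀ w ∈ Q, H w + (starRingEnd ℂ) c ≠ 0 := by
    intro w hw h0
    have := congrArg Complex.re h0
    rw [Complex.add_re, Complex.conj_re, Complex.zero_re] at this
    linarith [hpos w hw]
  have hgd : DifferentiableOn ℂ g (ball q d) := by
    intro w hw
    have hw' := hball hw
    have hHw : DifferentiableAt ℂ H w := (hH w hw').differentiableAt (isOpen_Q.mem_nhds hw')
    exact (DifferentiableAt.div (hHw.sub_const c) (hHw.add_const _) (hden w hw')).differentiableWithinAt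
  have hgq : g q = 0 := by simp [hg, hc]
  have hmaps : MapsTo g (ball q d) (closedBall (g q) 1) := by
    intro w hw
    have hw' := hball hw
    rw [hgq, mem_closedBall_zero_iff, hg]
    simp only
    rw [norm_div, div_le_one (norm_pos_iff.2 (hden w hw')), Complex.norm_def, Complex.norm_def]
    refine Real.sqrt_le_sqrt ?_
    rw [Complex.normSq_apply, Complex.normSq_apply]
    simp only [Complex.sub_re, Complex.add_re, Complex.sub_im, Complex.add_im, Complex.conj_re,
      Complex.conj_im]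
    nlinarith [mul_pos (hpos w hw') hc0]
  have h3 := Complex.norm_deriv_le_div_of_mapsTo_ball hgd hmaps hd
  have hHq : HasDerivAt H (deriv H q) q :=
    ((hH q hq).differentiableAt (isOpen_Q.mem_nhds hq)).hasDerivAt
  have h4 : HasDerivAt g (deriv H q / (2 * c.re : ℝ)) q := by
    have h5 := (hHq.sub_const c).div (hHq.add_const ((starRingEnd ℂ) c)) (hden q hq)
    have e1 : H q + (starRingEnd ℂ) c = ((2 * c.re : ℝ) : ℂ) := by
      rw [← hc, Complex.add_conj]
    have e2 : (2 * c.re : ℝ) ≠ 0 := by positivity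
    have e3 : ((2 * c.re : ℝ) : ℂ) ≠ 0 := by exact_mod_cast e2
    rw [e1] at h5
    refine (show HasDerivAt g _ q from h5).congr_deriv ?_
    rw [← hc, sub_self, zero_mul, sub_zero]
    field_simp
  rw [h4.deriv, norm_div, Complex.norm_real, Real.norm_eq_abs, abs_of_pos (by positivity)] at h3
  rw [div_le_div_iff₀ (by positivity) hd] at h3
  rw [le_div_iff₀ hd]
  linarith

/-- growth of a positive harmonic function along a segment -/
theorem growth {H : ℂ → ℂ} (hH : DifferentiableOn ℂ H Q) (hpos : ∀ q ∈ Q, 0 < (H q).re)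
    {q₀ δ : ℂ} {p T : ℝ} (hp : 0 < p) (hT : 0 ≤ T)
    (hre : ∀ t ∈ Icc (0 : ℝ) T, p ≤ (q₀ + t * δ).re ∧ p ≤ (q₀ + t * δ).im) :
    (H (q₀ + T * δ)).re ≤ Real.exp (2 * ‖δ‖ / p * T) * (H q₀).re := by
  have hQ : ∀ t ∈ Icc (0 : ℝ) T, q₀ + t * δ ∈ Q := fun t ht =>
    ⟨by linarith [(hre t ht).1], by linarith [(hre t ht).2]⟩
  have hder : ∀ t ∈ Icc (0 : ℝ) T, HasDerivAt (fun t : ℝ => (H (q₀ + t * δ)).re)
      (deriv H (q₀ + t * δ) * δ).re t := by
    intro t ht
    have h1 : HasDerivAt H (deriv H (q₀ + t * δ)) (q₀ + t * δ) :=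
      ((hH _ (hQ t ht)).differentiableAt (isOpen_Q.mem_nhds (hQ t ht))).hasDerivAt
    have h2 : HasDerivAt (fun t : ℝ => q₀ + t * δ) δ t := by
      have := ((hasDerivAt_id t).ofReal_comp.mul_const δ).const_add q₀
      simpa using this
    have h3 : HasDerivAt (fun t : ℝ => H (q₀ + t * δ)) (deriv H (q₀ + t * δ) * δ) t :=
      h1.comp t h2
    exact Complex.reCLM.hasFDerivAt.comp_hasDerivAt t h3
  have hb := norm_le_gronwallBound_of_norm_deriv_right_le (f := fun t : ℝ => (H (q₀ + t * δ)).re)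
    (f' := fun t : ℝ => (deriv H (q₀ + t * δ) * δ).re) (δ := (H q₀).re) (K := 2 * ‖δ‖ / p) (ε := 0)
    (a := 0) (b := T) (fun t ht => (hder t ht).continuousAt.continuousWithinAt)
    (fun t ht => (hder t ⟨ht.1, ht.2.le⟩).hasDerivWithinAt)
    (by
      have := hpos _ (hQ 0 ⟨le_rfl, hT⟩)
      simp only [Complex.ofReal_zero, zero_mul, add_zero] at this ⊢
      rw [Real.norm_eq_abs, abs_of_pos this])
    (fun t ht => by
      have ht' : t ∈ Icc (0 : ℝ) T := ⟨ht.1, ht.2.le⟩
      have h1 := norm_deriv_le hH hpos hp (hre t ht').1 (hre t ht').2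
      have h2 := hpos _ (hQ t ht')
      rw [Real.norm_eq_abs, Real.norm_eq_abs, abs_of_pos h2, add_zero]
      refine (Complex.abs_re_le_norm _).trans ?_
      rw [norm_mul]
      calc ‖deriv H (q₀ + t * δ)‖ * ‖δ‖ ≤ 2 * (H (q₀ + t * δ)).re / p * ‖δ‖ := by gcongr
        _ = 2 * ‖δ‖ / p * (H (q₀ + t * δ)).re := by ring)
    T ⟨hT, le_rfl⟩
  rw [gronwallBound_ε0, sub_zero, Real.norm_eq_abs, mul_comm (H q₀).re] at hb
  exact (le_abs_self _).trans hb

theorem growth_rev {H : ℂ → ℂ} (hH : DifferentiableOn ℂ H Q) (hpos : ∀ q ∈ Q, 0 < (H q).re)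
    {q₀ δ : ℂ} {p T : ℝ} (hp : 0 < p) (hT : 0 ≤ T)
    (hre : ∀ t ∈ Icc (0 : ℝ) T, p ≤ (q₀ + t * δ).re ∧ p ≤ (q₀ + t * δ).im) :
    (H q₀).re ≤ Real.exp (2 * ‖δ‖ / p * T) * (H (q₀ + T * δ)).re := by
  have h := growth hH hpos (q₀ := q₀ + T * δ) (δ := -δ) hp hT (fun t ht => by
    have h1 := hre (T - t) ⟨by linarith [ht.2], by linarith [ht.1]⟩
    have e : q₀ + (T : ℂ) * δ + (t : ℂ) * -δ = q₀ + ((T - t : ℝ) : ℂ) * δ := by
      push_cast
      ring
    rw [e]
    exact h1)
  have e : q₀ + (T : ℂ) * δ + (T : ℂ) * -δ = q₀ := by ring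
  rw [e, norm_neg] at h
  exact h

end Pool.Agent.Helper380.B2
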