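import Mathlib

set_option autoImplicit false

open Metric Set MeasureTheory Filter Topology

namespace Pool.Agent.Helper380.B3

/-- analytic dependence of an integral on a parameter -/
theorem differentiableAt_integral {F : ℂ → ℝ → ℂ} {ν : Measure ℝ} {v₀ : ℂ} {δ : ℝ} (hδ : 0 < δ)
    {bound : ℝ → ℝ} (hF : ∀ᵐ t ∂ν, DifferentiableOn ℂ (fun v => F v t) (ball v₀ δ))
    (hmeas : ∀ v ∈ ball v₀ δ, AEStronglyMeasurable (F v) ν)
    (hb : ∀ᵐ t ∂ν, ∀ v ∈ ball v₀ δ, ‖F v t‖ ≤ bound t) (hbint : Integrable bound ν) :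
    DifferentiableAt ℂ (fun v => ∫ t, F v t ∂ν) v₀ := by
  have hv₀ : v₀ ∈ ball v₀ δ := mem_ball_self hδ
  have hder : ∀ᵐ t ∂ν, ∀ v ∈ ball v₀ (δ / 2),
      HasDerivAt (fun v => F v t) (deriv (fun v => F v t) v) v := by
    filter_upwards [hF] with t ht v hv
    have hv' : v ∈ ball v₀ δ := ball_subset_ball (by linarith) hv
    exact ((ht v hv').differentiableAt (isOpen_ball.mem_nhds hv')).hasDerivAt
  have hbd : ∀ᵐ t ∂ν, ∀ v ∈ ball v₀ (δ / 2), ‖deriv (fun v => F v t) v‖ ≤ bound t / (δ / 4) := by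
    filter_upwards [hF, hb] with t ht hbt v hv
    have hsub : closedBall v (δ / 4) ⊆ ball v₀ δ := by
      intro w hw
      rw [mem_closedBall] at hw
      rw [mem_ball] at hv ⊢
      calc dist w v₀ ≤ dist w v + dist v v₀ := dist_triangle _ _ _
        _ < δ := by linarith
    refine Complex.norm_deriv_le_of_forall_mem_sphere_norm_le (by positivity) ?_ ?_
    · exact (ht.mono (closure_ball_subset_closedBall.trans hsub)).diffContOnCl
    · intro z hz
      exact hbt z (hsub (sphere_subset_closedBall hz))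
  have hmeas' : AEStronglyMeasurable (fun t => deriv (fun v => F v t) v₀) ν := by
    set h : ℕ → ℂ := fun n => ((δ / 2 / ((n : ℝ) + 1) : ℝ) : ℂ) with hh
    have hpos : ∀ n : ℕ, 0 < δ / 2 / ((n : ℝ) + 1) := fun n => by positivity
    have hball : ∀ n, v₀ + h n ∈ ball v₀ δ := by
      intro n
      rw [mem_ball, dist_eq_norm, add_sub_cancel_left, hh]
      simp only
      rw [Complex.norm_real, Real.norm_eq_abs, abs_of_pos (hpos n)]
      have h1 : δ / 2 / ((n : ℝ) + 1) ≤ δ / 2 := div_le_self (by positivity) (by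
        have : (0 : ℝ) ≤ n := Nat.cast_nonneg n
        linarith)
      linarith
    refine aestronglyMeasurable_of_tendsto_ae atTop
      (f := fun n t => (h n)⁻¹ • (F (v₀ + h n) t - F v₀ t)) (fun n => ?_) ?_
    · exact AEStronglyMeasurable.const_smul ((hmeas _ (hball n)).sub (hmeas _ hv₀)) (h n)⁻¹
    · filter_upwards [hder] with t ht
      have h1 := (ht v₀ (mem_ball_self (by positivity))).tendsto_slope_zero
      refine h1.comp ?_
      refine tendsto_nhdsWithin_iff.2 ⟨?_, ?_⟩
      · rw [hh]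
        have h2 : Tendsto (fun n : ℕ => δ / 2 / ((n : ℝ) + 1)) atTop (𝓝 0) := by
          have h3 := tendsto_one_div_add_atTop_nhds_zero_nat (𝕜 := ℝ)
          have h4 := h3.const_mul (δ / 2)
          rw [mul_zero] at h4
          refine h4.congr fun n => ?_
          ring
        have h5 := (Complex.continuous_ofReal.tendsto 0).comp h2
        rw [Complex.ofReal_zero] at h5
        exact h5
      · refine Eventually.of_forall fun n => ?_
        simp only [mem_compl_iff, mem_singleton_iff]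
        exact Complex.ofReal_ne_zero.2 (hpos n).ne'
  have key := hasDerivAt_integral_of_dominated_loc_of_deriv_le (𝕜 := ℂ) (F := F)
    (F' := fun v t => deriv (fun v => F v t) v) (x₀ := v₀) (s := ball v₀ (δ / 2))
    (bound := fun t => bound t / (δ / 4)) (μ := ν)
    (ball_mem_nhds _ (by positivity))
    (by
      filter_upwards [ball_mem_nhds v₀ hδ] with v hv
      exact hmeas v hv)
    (by
      refine hbint.mono' (hmeas _ hv₀) ?_
      filter_upwards [hb] with t ht
      exact ht v₀ hv₀)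
    hmeas' hbd (hbint.div_const _) hder
  exact key.2.differentiableAt

/-- integral over a vertical half line (without the factor `I`) -/
noncomputable def Vint (g : ℂ → ℂ) (r : ℂ) : ℂ := ∫ t in Ioi (0 : ℝ), g (r + t * Complex.I)

/-- integral over a horizontal half line -/
noncomputable def Hint (g : ℂ → ℂ) (r : ℂ) : ℂ := ∫ t in Ioi (0 : ℝ), g (r + t)

/-- integral over a horizontal unit segment -/
noncomputable def hseg (g : ℂ → ℂ) (r : ℂ) : ℂ := ∫ t in (0 : ℝ)..1, g (r + t)

/-- integral over a vertical unit segment (without the factor `I`) -/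
noncomputable def vseg (g : ℂ → ℂ) (r : ℂ) : ℂ := ∫ t in (0 : ℝ)..1, g (r + t * Complex.I)

theorem integrableOn_of_exp_bound {g : ℝ → ℂ} {C ε T : ℝ} (hε : 0 < ε) (hT : 0 ≤ T)
    (hc : ContinuousOn g (Ici 0)) (hb : ∀ t, T ≤ t → ‖g t‖ ≤ C * Real.exp (-ε * t)) :
    IntegrableOn g (Ioi 0) := by
  rw [← Ioc_union_Ioi_eq_Ioi hT]
  refine IntegrableOn.union ?_ ?_
  · exact ((hc.mono Icc_subset_Ici_self).integrableOn_Icc).mono_set Ioc_subset_Icc_self
  · refine Integrable.mono' ((integrableOn_exp_mul_Ioi (a := -ε) (by linarith) T).const_mul C)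
      ((hc.mono (Ioi_subset_Ici hT)).aestronglyMeasurable measurableSet_Ioi) ?_
    filter_upwards [ae_restrict_mem measurableSet_Ioi] with t ht
    exact hb t (le_of_lt ht)

theorem tendsto_exp_decay {C ε : ℝ} (hε : 0 < ε) :
    Tendsto (fun N : ℝ => C * Real.exp (-ε * N)) atTop (𝓝 0) := by
  have h1 : Tendsto (fun N : ℝ => -ε * N) atTop atBot :=
    tendsto_id.const_mul_atTop_of_neg (by linarith)
  have h2 := (Real.tendsto_exp_atBot.comp h1).const_mul C
  simpa using h2

/-- Cauchy theorem in a vertical half strip -/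
theorem strip_V {g : ℂ → ℂ} {r : ℂ} {C ε T : ℝ} (hε : 0 < ε) (hT : 0 ≤ T)
    (hg : ∀ s t : ℝ, 0 ≤ s → s ≤ 1 → 0 ≤ t → DifferentiableAt ℂ g (r + s + t * Complex.I))
    (hb : ∀ s t : ℝ, 0 ≤ s → s ≤ 1 → T ≤ t → ‖g (r + s + t * Complex.I)‖ ≤ C * Real.exp (-ε * t)) :
    Complex.I * Vint g r - Complex.I * Vint g (r + 1) = hseg g r := by
  have hrect : ∀ N : ℝ, 0 ≤ N →
      (∫ x : ℝ in (0 : ℝ)..1, g (r + x)) - (∫ x : ℝ in (0 : ℝ)..1, g (r + x + N * Complex.I)) +
      Complex.I * (∫ y : ℝ in (0 : ℝ)..N, g (r + 1 + y * Complex.I)) -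
      Complex.I * (∫ y : ℝ in (0 : ℝ)..N, g (r + y * Complex.I)) = 0 := by
    intro N hN
    have h := Complex.integral_boundary_rect_eq_zero_of_differentiableOn (fun z => g (r + z))
      0 ⟨1, N⟩ (by
        intro z hz
        simp only [Complex.mem_reProdIm, Complex.zero_re, Complex.zero_im] at hz
        rw [uIcc_of_le zero_le_one, uIcc_of_le hN] at hz
        have h1 := hg z.re z.im hz.1.1 hz.1.2 hz.2.1
        have h2 : r + (z.re : ℂ) + (z.im : ℂ) * Complex.I = r + z := by
          rw [add_assoc, Complex.re_add_im]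
        rw [h2] at h1
        exact (h1.comp z (by fun_prop)).differentiableWithinAt)
    simp only [Complex.zero_re, Complex.zero_im, Complex.ofReal_zero, zero_mul, add_zero, zero_add,
      Complex.ofReal_one, smul_eq_mul] at h
    simp only [← add_assoc] at h
    exact h
  have hcont : ∀ s : ℝ, 0 ≤ s → s ≤ 1 → ContinuousOn (fun t : ℝ => g (r + s + t * Complex.I)) (Ici 0) := by
    intro s hs0 hs1 t ht
    have h1 := (hg s t hs0 hs1 ht).continuousAt
    have h2 : ContinuousAt (fun t : ℝ => r + s + t * Complex.I) t := by fun_prop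
    exact (ContinuousAt.comp (f := fun t : ℝ => r + s + t * Complex.I) h1 h2).continuousWithinAt
  have hI : ∀ s : ℝ, 0 ≤ s → s ≤ 1 → IntegrableOn (fun t : ℝ => g (r + s + t * Complex.I)) (Ioi 0) :=
    fun s hs0 hs1 => integrableOn_of_exp_bound hε hT (hcont s hs0 hs1)
      fun t ht => hb s t hs0 hs1 ht
  have hI0 : IntegrableOn (fun t : ℝ => g (r + t * Complex.I)) (Ioi 0) := by
    have := hI 0 le_rfl zero_le_one
    simpa using this
  have hI1 : IntegrableOn (fun t : ℝ => g (r + 1 + t * Complex.I)) (Ioi 0) := by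
    have := hI 1 zero_le_one le_rfl
    simpa using this
  have t0 := intervalIntegral_tendsto_integral_Ioi 0 hI0 tendsto_id
  have t1 := intervalIntegral_tendsto_integral_Ioi 0 hI1 tendsto_id
  have t2 : Tendsto (fun N : ℝ => ∫ x : ℝ in (0 : ℝ)..1, g (r + x + N * Complex.I)) atTop (𝓝 0) := by
    refine squeeze_zero_norm' ?_ (tendsto_exp_decay (C := C) hε)
    filter_upwards [eventually_ge_atTop T] with N hN
    have h1 := intervalIntegral.norm_integral_le_of_norm_le_const (a := (0 : ℝ)) (b := 1)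
      (f := fun x : ℝ => g (r + x + N * Complex.I)) (C := C * Real.exp (-ε * N)) (fun x hx => by
        rw [uIoc_of_le zero_le_one] at hx
        exact hb x N hx.1.le hx.2 hN)
    simpa using h1
  have hlim := ((tendsto_const_nhds (x := ∫ x : ℝ in (0 : ℝ)..1, g (r + x))).sub t2).add
    (t1.const_mul Complex.I) |>.sub (t0.const_mul Complex.I)
  have hz : Tendsto (fun N : ℝ => (∫ x : ℝ in (0 : ℝ)..1, g (r + x)) -
      (∫ x : ℝ in (0 : ℝ)..1, g (r + x + N * Complex.I)) +
      Complex.I * (∫ y : ℝ in (0 : ℝ)..id N, g (r + 1 + y * Complex.I)) -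
      Complex.I * (∫ y : ℝ in (0 : ℝ)..id N, g (r + y * Complex.I))) atTop (𝓝 0) := by
    refine tendsto_const_nhds.congr' ?_
    filter_upwards [eventually_ge_atTop 0] with N hN
    exact (hrect N hN).symm
  have h := tendsto_nhds_unique hlim hz
  unfold Vint hseg
  linear_combination -h

/-- Cauchy theorem in a horizontal half strip -/
theorem strip_H {g : ℂ → ℂ} {r : ℂ} {C ε T : ℝ} (hε : 0 < ε) (hT : 0 ≤ T)
    (hg : ∀ s t : ℝ, 0 ≤ s → s ≤ 1 → 0 ≤ t → DifferentiableAt ℂ g (r + t + s * Complex.I))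
    (hb : ∀ s t : ℝ, 0 ≤ s → s ≤ 1 → T ≤ t → ‖g (r + t + s * Complex.I)‖ ≤ C * Real.exp (-ε * t)) :
    Hint g r - Hint g (r + Complex.I) = Complex.I * vseg g r := by
  have hrect : ∀ N : ℝ, 0 ≤ N →
      (∫ x : ℝ in (0 : ℝ)..N, g (r + x)) - (∫ x : ℝ in (0 : ℝ)..N, g (r + Complex.I + x)) +
      Complex.I * (∫ y : ℝ in (0 : ℝ)..1, g (r + N + y * Complex.I)) -
      Complex.I * (∫ y : ℝ in (0 : ℝ)..1, g (r + y * Complex.I)) = 0 := by
    intro N hN
    have h := Complex.integral_boundary_rect_eq_zero_of_differentiableOn (fun z => g (r + z))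
      0 ⟨N, 1⟩ (by
        intro z hz
        simp only [Complex.mem_reProdIm, Complex.zero_re, Complex.zero_im] at hz
        rw [uIcc_of_le zero_le_one, uIcc_of_le hN] at hz
        have h1 := hg z.im z.re hz.2.1 hz.2.2 hz.1.1
        have h2 : r + (z.re : ℂ) + (z.im : ℂ) * Complex.I = r + z := by
          rw [add_assoc, Complex.re_add_im]
        rw [h2] at h1
        exact (h1.comp z (by fun_prop)).differentiableWithinAt)
    simp only [Complex.zero_re, Complex.zero_im, Complex.ofReal_zero, zero_mul, add_zero, zero_add,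
      Complex.ofReal_one, smul_eq_mul] at h
    simp only [one_mul] at h
    have e : ∀ x : ℝ, r + ((x : ℂ) + Complex.I) = r + Complex.I + x := fun x => by ring
    simp only [e] at h
    simp only [← add_assoc] at h
    exact h
  have hcont : ∀ s : ℝ, 0 ≤ s → s ≤ 1 → ContinuousOn (fun t : ℝ => g (r + t + s * Complex.I)) (Ici 0) := by
    intro s hs0 hs1 t ht
    have h1 := (hg s t hs0 hs1 ht).continuousAt
    have h2 : ContinuousAt (fun t : ℝ => r + t + s * Complex.I) t := by fun_prop
    exact (ContinuousAt.comp (f := fun t : ℝ => r + t + s * Complex.I) h1 h2).continuousWithinAt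
  have hI : ∀ s : ℝ, 0 ≤ s → s ≤ 1 → IntegrableOn (fun t : ℝ => g (r + t + s * Complex.I)) (Ioi 0) :=
    fun s hs0 hs1 => integrableOn_of_exp_bound hε hT (hcont s hs0 hs1)
      fun t ht => hb s t hs0 hs1 ht
  have hI0 : IntegrableOn (fun t : ℝ => g (r + t)) (Ioi 0) := by
    have := hI 0 le_rfl zero_le_one
    simpa using this
  have hI1 : IntegrableOn (fun t : ℝ => g (r + Complex.I + t)) (Ioi 0) := by
    have := hI 1 zero_le_one le_rfl
    refine this.congr_fun (fun t _ => ?_) measurableSet_Ioi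
    simp only [Complex.ofReal_one, one_mul]
    ring_nf
  have t0 := intervalIntegral_tendsto_integral_Ioi 0 hI0 tendsto_id
  have t1 := intervalIntegral_tendsto_integral_Ioi 0 hI1 tendsto_id
  have t2 : Tendsto (fun N : ℝ => ∫ y : ℝ in (0 : ℝ)..1, g (r + N + y * Complex.I)) atTop (𝓝 0) := by
    refine squeeze_zero_norm' ?_ (tendsto_exp_decay (C := C) hε)
    filter_upwards [eventually_ge_atTop T] with N hN
    have h1 := intervalIntegral.norm_integral_le_of_norm_le_const (a := (0 : ℝ)) (b := 1)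
      (f := fun y : ℝ => g (r + N + y * Complex.I)) (C := C * Real.exp (-ε * N)) (fun x hx => by
        rw [uIoc_of_le zero_le_one] at hx
        exact hb x N hx.1.le hx.2 hN)
    simpa using h1
  have hlim := (t0.sub t1).add (t2.const_mul Complex.I) |>.sub
    (tendsto_const_nhds (x := Complex.I * ∫ y : ℝ in (0 : ℝ)..1, g (r + y * Complex.I)))
  have hz : Tendsto (fun N : ℝ => (∫ x : ℝ in (0 : ℝ)..id N, g (r + x)) -
      (∫ x : ℝ in (0 : ℝ)..id N, g (r + Complex.I + x)) +
      Complex.I * (∫ y : ℝ in (0 : ℝ)..1, g (r + N + y * Complex.I)) -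
      Complex.I * (∫ y : ℝ in (0 : ℝ)..1, g (r + y * Complex.I))) atTop (𝓝 0) := by
    refine tendsto_const_nhds.congr' ?_
    filter_upwards [eventually_ge_atTop 0] with N hN
    exact (hrect N hN).symm
  have h := tendsto_nhds_unique hlim hz
  unfold Hint vseg
  linear_combination h

end Pool.Agent.Helper380.B3
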