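import Pool.Agent.Helper380.B2
import Pool.Agent.Helper380.B3

set_option autoImplicit false

open Metric Set MeasureTheory Filter Topology Pool.Agent.Helper380.B2 Pool.Agent.Helper380.B3

namespace Pool.Agent.Helper380.B4

/-- the translation vector -/
noncomputable def τ : ℂ := 1 + Complex.I
/-- the corner of the contour -/
noncomputable def P : ℂ := (3 / 4 : ℝ) + (3 / 4 : ℝ) * Complex.I
/-- exponent of the eigenfunction -/
noncomputable def b : ℂ := (3 / 2 : ℝ) - (3 / 2 : ℝ) * Complex.I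
/-- period exponential -/
noncomputable def X (r : ℂ) : ℂ := Complex.exp ((Real.pi + Real.pi * Complex.I) * r)
/-- kernel for the vertical ray -/
noncomputable def Kp (r : ℂ) : ℂ := Complex.exp (b * r) * (X r / (1 - X r))
/-- kernel for the horizontal ray -/
noncomputable def Km (r : ℂ) : ℂ := Complex.exp (b * r) * (1 / (X r - 1))
/-- the eigenvalue -/
noncomputable def μ : ℂ := ((Real.exp (-3) : ℝ) : ℂ)

theorem τ_ne : τ ≠ 0 := by
  intro h
  have := congrArg Complex.re h
  simp [τ] at this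

theorem μ_ne : μ ≠ 0 := by
  unfold μ
  exact_mod_cast (Real.exp_pos _).ne'

theorem b_mul_τ : b * τ = 3 := by
  unfold b τ
  have := Complex.I_sq
  push_cast
  linear_combination (-(3 : ℂ) / 2) * this

theorem b_mul_P : b * P = 9 / 4 := by
  unfold b P
  have := Complex.I_sq
  push_cast
  linear_combination (-(9 : ℂ) / 8) * this

theorem exp_b_τ : Complex.exp (b * τ) * μ = 1 := by
  rw [b_mul_τ, μ, Complex.ofReal_exp, ← Complex.exp_add]
  simp

theorem norm_exp_b (r : ℂ) : ‖Complex.exp (b * r)‖ = Real.exp (3 / 2 * (r.re + r.im)) := by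
  rw [Complex.norm_exp]
  congr 1
  simp [b]
  ring

theorem norm_X (r : ℂ) : ‖X r‖ = Real.exp (Real.pi * (r.re - r.im)) := by
  rw [X, Complex.norm_exp]
  congr 1
  simp
  ring

theorem X_ne (r : ℂ) : X r ≠ 0 := Complex.exp_ne_zero _

theorem X_add_τ (r : ℂ) : X (r + τ) = X r := by
  rw [X, X, mul_add, Complex.exp_add]
  have h : (Real.pi + Real.pi * Complex.I : ℂ) * τ = 2 * Real.pi * Complex.I := by
    unfold τ
    have := Complex.I_sq
    linear_combination (Real.pi : ℂ) * this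
  rw [h, Complex.exp_two_pi_mul_I, mul_one]

theorem exp_b_add_τ (r : ℂ) : Complex.exp (b * (r + τ)) * μ = Complex.exp (b * r) := by
  rw [mul_add, Complex.exp_add, mul_assoc, exp_b_τ, mul_one]

theorem Kp_add_τ (r : ℂ) : Kp (r + τ) * μ = Kp r := by
  unfold Kp
  rw [X_add_τ, ← exp_b_add_τ r]
  ring

theorem Km_add_τ (r : ℂ) : Km (r + τ) * μ = Km r := by
  unfold Km
  rw [X_add_τ, ← exp_b_add_τ r]
  ring

theorem Kp_add_Km {r : ℂ} (h : X r ≠ 1) : Kp r + Km r = -Complex.exp (b * r) := by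
  unfold Kp Km
  have h1 : 1 - X r ≠ 0 := fun h0 => h (by linear_combination -h0)
  have h2 : X r - 1 ≠ 0 := fun h0 => h (by linear_combination h0)
  field_simp
  ring

/-- `X r = 1` only at integer multiples of the period -/
theorem X_eq_one {r : ℂ} (h : X r = 1) : ∃ n : ℤ, r.re = n ∧ r.im = n := by
  rw [X, Complex.exp_eq_one_iff] at h
  obtain ⟨n, hn⟩ := h
  refine ⟨n, ?_⟩
  have h1 := congrArg Complex.re hn
  have h2 := congrArg Complex.im hn
  simp at h1 h2
  have hpi := Real.pi_pos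
  have h3 : r.re = r.im := by nlinarith
  rw [h3] at h2
  have h4 : r.im = n := by
    have : Real.pi * (2 * r.im) = Real.pi * (2 * n) := by linarith
    have := mul_left_cancel₀ hpi.ne' this
    linarith
  exact ⟨h3.trans h4, h4⟩

theorem X_ne_one {r : ℂ} (h : ∀ n : ℤ, r.re = n → r.im ≠ n) : X r ≠ 1 := by
  intro h1
  obtain ⟨n, h2, h3⟩ := X_eq_one h1
  exact h n h2 h3

theorem P_re : P.re = 3 / 4 := by simp [P]
theorem P_im : P.im = 3 / 4 := by simp [P]

theorem mul_exp_neg_le {t : ℝ} : t * Real.exp (-t) ≤ 1 / 2 := by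
  rcases le_or_gt t 0 with h | h
  · have := Real.exp_pos (-t)
    nlinarith
  · have h2 := Real.quadratic_le_exp_of_nonneg h.le
    rw [Real.exp_neg, ← div_eq_mul_inv, div_le_iff₀ (Real.exp_pos t)]
    nlinarith [sq_nonneg (t - 1)]

theorem exp_sin_le {t : ℝ} (ht : 0 ≤ t) : Real.exp (-t) * Real.sin t ≤ 1 / 2 := by
  have h1 := Real.sin_le ht
  have h2 := Real.exp_pos (-t)
  calc Real.exp (-t) * Real.sin t ≤ Real.exp (-t) * t := by gcongr
    _ = t * Real.exp (-t) := by ring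
    _ ≤ 1 / 2 := mul_exp_neg_le

/-- on the vertical ray -/
theorem X_vert (t : ℝ) : (X (P + t * Complex.I)).re = Real.exp (-(Real.pi * t)) * Real.sin (Real.pi * t) := by
  rw [X, Complex.exp_re]
  have h1 : ((Real.pi + Real.pi * Complex.I) * (P + t * Complex.I)).re = -(Real.pi * t) := by
    simp [P_re, P_im]
    ring
  have h2 : ((Real.pi + Real.pi * Complex.I) * (P + t * Complex.I)).im =
      Real.pi * t - Real.pi / 2 + 2 * Real.pi := by
    simp [P_re, P_im]
    ring
  rw [h1, h2, Real.cos_add_two_pi, Real.cos_sub_pi_div_two]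

theorem norm_one_sub_X_vert {t : ℝ} (ht : 0 ≤ t) : 1 / 2 ≤ ‖1 - X (P + t * Complex.I)‖ := by
  have h1 := Complex.re_le_norm (1 - X (P + t * Complex.I))
  rw [Complex.sub_re, Complex.one_re, X_vert] at h1
  have h2 := exp_sin_le (t := Real.pi * t) (by positivity)
  linarith

/-- on the horizontal ray -/
theorem X_hor (t : ℝ) : ((X (P + t))⁻¹).re = Real.exp (-(Real.pi * t)) * Real.sin (Real.pi * t) := by
  rw [X, ← Complex.exp_neg, Complex.exp_re]
  have h1 : (-((Real.pi + Real.pi * Complex.I) * (P + t))).re = -(Real.pi * t) := by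
    simp [P_re, P_im]
    ring
  have h2 : (-((Real.pi + Real.pi * Complex.I) * (P + t))).im =
      -(Real.pi * t - Real.pi / 2 + 2 * Real.pi) := by
    simp [P_re, P_im]
    ring
  rw [h1, h2, Real.cos_neg, Real.cos_add_two_pi, Real.cos_sub_pi_div_two]

theorem norm_X_sub_one_hor {t : ℝ} (ht : 0 ≤ t) : Real.exp (Real.pi * t) / 2 ≤ ‖X (P + t) - 1‖ := by
  have h1 := Complex.re_le_norm (1 - (X (P + t))⁻¹)
  rw [Complex.sub_re, Complex.one_re, X_hor] at h1
  have h2 := exp_sin_le (t := Real.pi * t) (by positivity)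
  have h3 : X (P + t) - 1 = X (P + t) * (1 - (X (P + t))⁻¹) := by
    rw [mul_sub, mul_inv_cancel₀ (X_ne _), mul_one]
  have h4 : ‖X (P + t)‖ = Real.exp (Real.pi * t) := by
    rw [norm_X]
    congr 2
    simp [P_re, P_im]
  rw [h3, norm_mul, h4]
  have h5 := Real.exp_pos (Real.pi * t)
  nlinarith

theorem pi_bound : (157 : ℝ) / 50 < Real.pi := by
  have := Real.pi_gt_d2
  norm_num at this ⊢
  linarith

/-- kernel bound on the vertical ray -/
theorem norm_Kp_le {t : ℝ} (ht : 0 ≤ t) :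
    ‖Kp (P + t * Complex.I)‖ ≤ 2 * Real.exp (9 / 4) * Real.exp (-(41 / 25) * t) := by
  have h1 := norm_one_sub_X_vert ht
  rw [Kp, norm_mul, norm_div, norm_exp_b, norm_X]
  have e1 : (P + t * Complex.I).re = 3 / 4 := by simp [P_re]
  have e2 : (P + t * Complex.I).im = 3 / 4 + t := by simp [P_im]
  rw [e1, e2]
  have h2 : Real.exp (Real.pi * (3 / 4 - (3 / 4 + t))) / ‖1 - X (P + t * Complex.I)‖ ≤
      Real.exp (Real.pi * (3 / 4 - (3 / 4 + t))) * 2 := by
    rw [div_le_iff₀ (by linarith)]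
    have h3 := Real.exp_pos (Real.pi * (3 / 4 - (3 / 4 + t)))
    nlinarith
  calc Real.exp (3 / 2 * (3 / 4 + (3 / 4 + t))) *
        (Real.exp (Real.pi * (3 / 4 - (3 / 4 + t))) / ‖1 - X (P + t * Complex.I)‖)
      ≤ Real.exp (3 / 2 * (3 / 4 + (3 / 4 + t))) *
        (Real.exp (Real.pi * (3 / 4 - (3 / 4 + t))) * 2) := by gcongr
    _ = 2 * Real.exp (9 / 4 + (3 / 2 - Real.pi) * t) := by
        rw [← mul_assoc, ← Real.exp_add, mul_comm]
        congr 2
        ring
    _ ≤ 2 * Real.exp (9 / 4 + -(41 / 25) * t) := by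
        have := pi_bound
        gcongr
        linarith
    _ = 2 * Real.exp (9 / 4) * Real.exp (-(41 / 25) * t) := by
        rw [Real.exp_add]; ring

/-- kernel bound on the horizontal ray -/
theorem norm_Km_le {t : ℝ} (ht : 0 ≤ t) :
    ‖Km (P + t)‖ ≤ 2 * Real.exp (9 / 4) * Real.exp (-(41 / 25) * t) := by
  have h1 := norm_X_sub_one_hor ht
  have h0 := Real.exp_pos (Real.pi * t)
  rw [Km, norm_mul, norm_div, norm_exp_b, norm_one]
  have e1 : (P + (t : ℂ)).re = 3 / 4 + t := by simp [P_re]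
  have e2 : (P + (t : ℂ)).im = 3 / 4 := by simp [P_im]
  rw [e1, e2]
  have h2 : 1 / ‖X (P + t) - 1‖ ≤ Real.exp (-(Real.pi * t)) * 2 := by
    rw [div_le_iff₀ (by linarith), Real.exp_neg]
    have h3 : (Real.exp (Real.pi * t))⁻¹ * Real.exp (Real.pi * t) = 1 :=
      inv_mul_cancel₀ h0.ne'
    have h4 : 0 < (Real.exp (Real.pi * t))⁻¹ := inv_pos.2 h0
    nlinarith
  calc Real.exp (3 / 2 * (3 / 4 + t + 3 / 4)) * (1 / ‖X (P + t) - 1‖)
      ≤ Real.exp (3 / 2 * (3 / 4 + t + 3 / 4)) * (Real.exp (-(Real.pi * t)) * 2) := by gcongr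
    _ = 2 * Real.exp (9 / 4 + (3 / 2 - Real.pi) * t) := by
        rw [← mul_assoc, ← Real.exp_add, mul_comm]
        congr 2
        ring
    _ ≤ 2 * Real.exp (9 / 4 + -(41 / 25) * t) := by
        have := pi_bound
        gcongr
        linarith
    _ = 2 * Real.exp (9 / 4) * Real.exp (-(41 / 25) * t) := by
        rw [Real.exp_add]; ring

/-- growth data for an analytic function on the quadrant -/
structure GD (G : ℂ → ℂ) (m : ℂ → ℝ) : Prop where
  diff : DifferentiableOn ℂ G Q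
  cont : ContinuousOn m Q
  b1 : ∀ v ∈ Q, ∀ s t : ℝ, 0 ≤ s → 0 ≤ t →
    ‖G (v + P + s + t * Complex.I)‖ ≤ m v * Real.exp (4 / 3 * (s + t))
  b2 : ∀ v ∈ Q, ∀ t : ℝ, 0 ≤ t → t ≤ 1 →
    ‖G (P + t * v)‖ ≤ m v * Real.exp (4 / 3 * (v.re + v.im) * (1 - t))

theorem add_mem_Q {v w : ℂ} (hv : v ∈ Q) (hr : 0 ≤ w.re) (hi : 0 ≤ w.im) : v + w ∈ Q :=
  ⟨by rw [Complex.add_re]; linarith [hv.1], by rw [Complex.add_im]; linarith [hv.2]⟩

theorem GD.m_nonneg {G : ℂ → ℂ} {m : ℂ → ℝ} (h : GD G m) {v : ℂ} (hv : v ∈ Q) : 0 ≤ m v := by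
  have h1 := h.b1 v hv 0 0 le_rfl le_rfl
  simp at h1
  exact (norm_nonneg _).trans h1

/-- the vertical part of the potential -/
noncomputable def V (G : ℂ → ℂ) (v : ℂ) : ℂ := Vint (fun r => Kp r * G (v + r)) P
/-- the horizontal part of the potential -/
noncomputable def Hh (G : ℂ → ℂ) (v : ℂ) : ℂ := Hint (fun r => Km r * G (v + r)) P
/-- the potential -/
noncomputable def Y (G : ℂ → ℂ) (v : ℂ) : ℂ := Complex.I * V G v + Hh G v

theorem X_ne_one_vert {t : ℝ} (ht : 0 ≤ t) : 1 - X (P + t * Complex.I) ≠ 0 := by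
  intro h
  have := norm_one_sub_X_vert ht
  rw [h, norm_zero] at this
  norm_num at this

theorem X_ne_one_hor {t : ℝ} (ht : 0 ≤ t) : X (P + t) - 1 ≠ 0 := by
  intro h
  have := norm_X_sub_one_hor ht
  rw [h, norm_zero] at this
  have h2 := Real.exp_pos (Real.pi * t)
  linarith

theorem continuous_X : Continuous X := by unfold X; fun_prop
theorem differentiable_X : Differentiable ℂ X := by unfold X; fun_prop

theorem norm_Kp_mul_le {G : ℂ → ℂ} {m : ℂ → ℝ} (h : GD G m) {v : ℂ} (hv : v ∈ Q) {t : ℝ}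
    (ht : 0 ≤ t) : ‖Kp (P + t * Complex.I) * G (v + (P + t * Complex.I))‖ ≤
      2 * Real.exp (9 / 4) * m v * Real.exp (-(3 / 10) * t) := by
  have h1 := norm_Kp_le ht
  have h2 := h.b1 v hv 0 t le_rfl ht
  have e : v + P + ((0 : ℝ) : ℂ) + t * Complex.I = v + (P + t * Complex.I) := by
    push_cast
    ring
  rw [e, zero_add] at h2
  have hm := h.m_nonneg hv
  rw [norm_mul]
  calc ‖Kp (P + t * Complex.I)‖ * ‖G (v + (P + t * Complex.I))‖
      ≤ (2 * Real.exp (9 / 4) * Real.exp (-(41 / 25) * t)) * (m v * Real.exp (4 / 3 * t)) := by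
        gcongr
    _ = 2 * Real.exp (9 / 4) * m v * Real.exp (-(41 / 25) * t + 4 / 3 * t) := by
        rw [Real.exp_add]; ring
    _ ≤ 2 * Real.exp (9 / 4) * m v * Real.exp (-(3 / 10) * t) := by
        gcongr
        linarith

theorem norm_Km_mul_le {G : ℂ → ℂ} {m : ℂ → ℝ} (h : GD G m) {v : ℂ} (hv : v ∈ Q) {t : ℝ}
    (ht : 0 ≤ t) : ‖Km (P + t) * G (v + (P + t))‖ ≤
      2 * Real.exp (9 / 4) * m v * Real.exp (-(3 / 10) * t) := by
  have h1 := norm_Km_le ht
  have h2 := h.b1 v hv t 0 ht le_rfl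
  have e : v + P + (t : ℂ) + ((0 : ℝ) : ℂ) * Complex.I = v + (P + t) := by
    push_cast
    ring
  rw [e, add_zero] at h2
  have hm := h.m_nonneg hv
  rw [norm_mul]
  calc ‖Km (P + t)‖ * ‖G (v + (P + t))‖
      ≤ (2 * Real.exp (9 / 4) * Real.exp (-(41 / 25) * t)) * (m v * Real.exp (4 / 3 * t)) := by
        gcongr
    _ = 2 * Real.exp (9 / 4) * m v * Real.exp (-(41 / 25) * t + 4 / 3 * t) := by
        rw [Real.exp_add]; ring
    _ ≤ 2 * Real.exp (9 / 4) * m v * Real.exp (-(3 / 10) * t) := by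
        gcongr
        linarith

theorem continuousOn_Kp_mul {G : ℂ → ℂ} (hG : DifferentiableOn ℂ G Q) {v : ℂ} (hv : v ∈ Q) :
    ContinuousOn (fun t : ℝ => Kp (P + t * Complex.I) * G (v + (P + t * Complex.I))) (Ici 0) := by
  intro t ht
  have ht0 : (0 : ℝ) ≤ t := ht
  have hmem : v + (P + t * Complex.I) ∈ Q := add_mem_Q hv (by simp [P_re]; norm_num) (by simp [P_im]; linarith)
  have h1 : ContinuousAt G (v + (P + t * Complex.I)) :=
    (hG.differentiableAt (isOpen_Q.mem_nhds hmem)).continuousAt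
  have h2 : ContinuousAt (fun t : ℝ => G (v + (P + t * Complex.I))) t :=
    ContinuousAt.comp (f := fun t : ℝ => v + (P + t * Complex.I)) h1 (by fun_prop)
  have h3 : ContinuousAt (fun t : ℝ => X (P + t * Complex.I)) t :=
    (continuous_X.comp (by fun_prop : Continuous fun t : ℝ => P + t * Complex.I)).continuousAt
  have h4 : ContinuousAt (fun t : ℝ => Kp (P + t * Complex.I)) t := by
    unfold Kp
    refine ContinuousAt.mul (by fun_prop) ?_
    exact h3.div (continuousAt_const.sub h3) (X_ne_one_vert ht0)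
  exact (h4.mul h2).continuousWithinAt

theorem continuousOn_Km_mul {G : ℂ → ℂ} (hG : DifferentiableOn ℂ G Q) {v : ℂ} (hv : v ∈ Q) :
    ContinuousOn (fun t : ℝ => Km (P + t) * G (v + (P + t))) (Ici 0) := by
  intro t ht
  have ht0 : (0 : ℝ) ≤ t := ht
  have hmem : v + (P + t) ∈ Q := add_mem_Q hv (by simp [P_re]; linarith) (by simp [P_im]; norm_num)
  have h1 : ContinuousAt G (v + (P + t)) :=
    (hG.differentiableAt (isOpen_Q.mem_nhds hmem)).continuousAt
  have h2 : ContinuousAt (fun t : ℝ => G (v + (P + t))) t :=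
    ContinuousAt.comp (f := fun t : ℝ => v + (P + t)) h1 (by fun_prop)
  have h3 : ContinuousAt (fun t : ℝ => X (P + t)) t :=
    (continuous_X.comp (by fun_prop : Continuous fun t : ℝ => P + (t : ℂ))).continuousAt
  have h4 : ContinuousAt (fun t : ℝ => Km (P + t)) t := by
    unfold Km
    refine ContinuousAt.mul (by fun_prop) ?_
    exact continuousAt_const.div (h3.sub continuousAt_const) (X_ne_one_hor ht0)
  exact (h4.mul h2).continuousWithinAt

theorem integrable_Kp_mul {G : ℂ → ℂ} {m : ℂ → ℝ} (h : GD G m) {v : ℂ} (hv : v ∈ Q) :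
    IntegrableOn (fun t : ℝ => Kp (P + t * Complex.I) * G (v + (P + t * Complex.I))) (Ioi 0) :=
  integrableOn_of_exp_bound (ε := 3 / 10) (by norm_num) le_rfl (continuousOn_Kp_mul h.diff hv)
    fun t ht => norm_Kp_mul_le h hv ht

theorem integrable_Km_mul {G : ℂ → ℂ} {m : ℂ → ℝ} (h : GD G m) {v : ℂ} (hv : v ∈ Q) :
    IntegrableOn (fun t : ℝ => Km (P + t) * G (v + (P + t))) (Ioi 0) :=
  integrableOn_of_exp_bound (ε := 3 / 10) (by norm_num) le_rfl (continuousOn_Km_mul h.diff hv)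
    fun t ht => norm_Km_mul_le h hv ht

theorem norm_integral_le_aux {g : ℝ → ℂ} {C : ℝ}
    (hb : ∀ t, 0 ≤ t → ‖g t‖ ≤ C * Real.exp (-(3 / 10) * t)) :
    ‖∫ t in Ioi (0 : ℝ), g t‖ ≤ C * (10 / 3) := by
  have h1 : IntegrableOn (fun t : ℝ => C * Real.exp (-(3 / 10) * t)) (Ioi 0) :=
    (integrableOn_exp_mul_Ioi (by norm_num) 0).const_mul C
  have h2 := norm_integral_le_of_norm_le h1 (f := g) (by
    filter_upwards [ae_restrict_mem measurableSet_Ioi] with t ht
    exact hb t (le_of_lt ht))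
  refine h2.trans_eq ?_
  rw [MeasureTheory.integral_const_mul, integral_exp_mul_Ioi (by norm_num) 0]
  simp

theorem norm_Y_le {G : ℂ → ℂ} {m : ℂ → ℝ} (h : GD G m) {v : ℂ} (hv : v ∈ Q) :
    ‖Y G v‖ ≤ 2 * (2 * Real.exp (9 / 4) * m v * (10 / 3)) := by
  have h1 : ‖V G v‖ ≤ 2 * Real.exp (9 / 4) * m v * (10 / 3) :=
    norm_integral_le_aux fun t ht => norm_Kp_mul_le h hv ht
  have h2 : ‖Hh G v‖ ≤ 2 * Real.exp (9 / 4) * m v * (10 / 3) :=
    norm_integral_le_aux fun t ht => norm_Km_mul_le h hv ht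
  unfold Y
  refine (norm_add_le _ _).trans ?_
  rw [norm_mul, Complex.norm_I, one_mul]
  linarith

theorem differentiableOn_Y {G : ℂ → ℂ} {m : ℂ → ℝ} (h : GD G m) :
    DifferentiableOn ℂ (Y G) Q := by
  intro v₀ hv₀
  refine DifferentiableAt.differentiableWithinAt ?_
  -- local bound for m
  obtain ⟨δ, hδ, hball, M, hM⟩ : ∃ δ > 0, ball v₀ δ ⊆ Q ∧ ∃ M, ∀ v ∈ ball v₀ δ, m v ≤ M := by
    have h1 : ContinuousAt m v₀ := h.cont.continuousAt (isOpen_Q.mem_nhds hv₀)
    have h2 : ∀ᶠ v in 𝓝 v₀, m v < m v₀ + 1 :=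
      h1.eventually_lt_const (by linarith)
    have h3 : ∀ᶠ v in 𝓝 v₀, v ∈ Q := isOpen_Q.mem_nhds hv₀
    obtain ⟨δ, hδ, hb⟩ := Metric.eventually_nhds_iff_ball.1 (h2.and h3)
    exact ⟨δ, hδ, fun v hv => (hb v hv).2, m v₀ + 1, fun v hv => (hb v hv).1.le⟩
  have hGd : ∀ w ∈ Q, DifferentiableAt ℂ G w := fun w hw =>
    (h.diff w hw).differentiableAt (isOpen_Q.mem_nhds hw)
  have hint : Integrable (fun t : ℝ => 2 * Real.exp (9 / 4) * M * Real.exp (-(3 / 10) * t))
      (volume.restrict (Ioi 0)) := (integrableOn_exp_mul_Ioi (by norm_num) 0).const_mul _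
  have hV : DifferentiableAt ℂ (V G) v₀ := by
    refine differentiableAt_integral (F := fun v t => Kp (P + t * Complex.I) *
      G (v + (P + t * Complex.I))) hδ ?_ ?_ ?_ hint
    · filter_upwards [ae_restrict_mem measurableSet_Ioi] with t ht v hv
      have ht0 : (0 : ℝ) < t := ht
      have hmem : v + (P + t * Complex.I) ∈ Q :=
        add_mem_Q (hball hv) (by simp [P_re]; norm_num) (by simp [P_im]; linarith)
      exact (((hGd _ hmem).comp v (by fun_prop)).const_mul _).differentiableWithinAt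
    · intro v hv
      exact (integrable_Kp_mul h (hball hv)).aestronglyMeasurable
    · filter_upwards [ae_restrict_mem measurableSet_Ioi] with t ht v hv
      refine (norm_Kp_mul_le h (hball hv) (le_of_lt ht)).trans ?_
      have := hM v hv
      gcongr
  have hH : DifferentiableAt ℂ (Hh G) v₀ := by
    refine differentiableAt_integral (F := fun v t => Km (P + t) * G (v + (P + t))) hδ ?_ ?_ ?_ hint
    · filter_upwards [ae_restrict_mem measurableSet_Ioi] with t ht v hv
      have ht0 : (0 : ℝ) < t := ht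
      have hmem : v + (P + t) ∈ Q :=
        add_mem_Q (hball hv) (by simp [P_re]; linarith) (by simp [P_im]; norm_num)
      exact (((hGd _ hmem).comp v (by fun_prop)).const_mul _).differentiableWithinAt
    · intro v hv
      exact (integrable_Km_mul h (hball hv)).aestronglyMeasurable
    · filter_upwards [ae_restrict_mem measurableSet_Ioi] with t ht v hv
      refine (norm_Km_mul_le h (hball hv) (le_of_lt ht)).trans ?_
      have := hM v hv
      gcongr
  exact (hV.const_mul _).add hH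

end Pool.Agent.Helper380.B4
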