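import Pool.Agent.Helper380.B4

set_option autoImplicit false

open Metric Set MeasureTheory Filter Topology Pool.Agent.Helper380.B2 Pool.Agent.Helper380.B3
open Pool.Agent.Helper380.B4

namespace Pool.Agent.Helper380.B5

theorem shift_Ioi (f : ℝ → ℂ) : ∫ t in Ioi (1 : ℝ), f t = ∫ t in Ioi (0 : ℝ), f (t + 1) := by
  have h := (measurePreserving_add_right volume (1 : ℝ)).setIntegral_preimage_emb
    (measurableEmbedding_addRight (1 : ℝ)) f (Ioi 1)
  rw [← h]
  congr 2
  ext x
  simp

theorem Vint_split {g : ℂ → ℂ} {r : ℂ}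
    (h : IntegrableOn (fun t : ℝ => g (r + t * Complex.I)) (Ioi 0)) :
    Vint g r = vseg g r + Vint g (r + Complex.I) := by
  unfold Vint vseg
  rw [← intervalIntegral.integral_interval_add_Ioi h (h.mono_set (Ioi_subset_Ioi zero_le_one)),
    shift_Ioi]
  congr 2
  funext t
  congr 1
  push_cast
  ring

theorem Hint_split {g : ℂ → ℂ} {r : ℂ}
    (h : IntegrableOn (fun t : ℝ => g (r + t)) (Ioi 0)) :
    Hint g r = hseg g r + Hint g (r + 1) := by
  unfold Hint hseg
  rw [← intervalIntegral.integral_interval_add_Ioi h (h.mono_set (Ioi_subset_Ioi zero_le_one)),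
    shift_Ioi]
  congr 2
  funext t
  congr 1
  push_cast
  ring

/-- contour from `P` to `P + 1` to `P + τ` -/
noncomputable def Bs (g : ℂ → ℂ) : ℂ := hseg g P + Complex.I * vseg g (P + 1)

theorem P_add_τ : P + 1 + Complex.I = P + τ := by unfold τ; ring

/-- horizontal rays -/
theorem hor_identity {g E : ℂ → ℂ} {C : ℝ} (hg : ∀ r, g r = (1 / (X r - 1)) * E r)
    (hE : ∀ s t : ℝ, 0 ≤ s → 0 ≤ t → DifferentiableAt ℂ E (P + t + s * Complex.I))
    (hb : ∀ s t : ℝ, 0 ≤ s → s ≤ 1 → 0 ≤ t →
      ‖E (P + t + s * Complex.I)‖ ≤ C * Real.exp (17 / 6 * t)) :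
    Hint g (P + τ) - Hint g P = -Bs g ∧ (∀ t : ℝ, 0 ≤ t → DifferentiableAt ℂ g (P + t)) ∧
      (∀ s t : ℝ, 0 ≤ s → s ≤ 1 → 0 ≤ t →
        DifferentiableAt ℂ g (P + 1 + t + s * Complex.I)) := by
  have hC : 0 ≤ C := by
    have := hb 0 0 le_rfl zero_le_one le_rfl
    simp at this
    exact (norm_nonneg _).trans this
  have hpi := pi_bound
  have hre : ∀ s t : ℝ, (P + t + s * Complex.I).re = 3 / 4 + t := by intro s t; simp [P_re]
  have him : ∀ s t : ℝ, (P + t + s * Complex.I).im = 3 / 4 + s := by intro s t; simp [P_im]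
  -- differentiability on the ray
  have hd0 : ∀ t : ℝ, 0 ≤ t → DifferentiableAt ℂ g (P + t) := by
    intro t ht
    have h1 := hE 0 t le_rfl ht
    simp only [Complex.ofReal_zero, zero_mul, add_zero] at h1
    have h2 : g = fun r => (1 / (X r - 1)) * E r := funext hg
    rw [h2]
    refine DifferentiableAt.mul ?_ h1
    exact (differentiableAt_const _).div (differentiable_X.differentiableAt.sub_const 1)
      (X_ne_one_hor ht)
  -- differentiability in the strip right of P + 1
  have hd1 : ∀ s t : ℝ, 0 ≤ s → s ≤ 1 → 0 ≤ t →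
      DifferentiableAt ℂ g (P + 1 + t + s * Complex.I) := by
    intro s t hs0 hs1 ht
    have h1 := hE s (1 + t) hs0 (by linarith)
    have e : P + ((1 + t : ℝ) : ℂ) + s * Complex.I = P + 1 + t + s * Complex.I := by
      push_cast; ring
    rw [e] at h1
    have h2 : g = fun r => (1 / (X r - 1)) * E r := funext hg
    rw [h2]
    refine DifferentiableAt.mul ?_ h1
    refine (differentiableAt_const _).div (differentiable_X.differentiableAt.sub_const 1) ?_
    rw [sub_ne_zero, ← e]
    refine X_ne_one fun n hn hn' => ?_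
    rw [hre] at hn
    rw [him] at hn'
    have h3 : (n : ℝ) ≤ 7 / 4 := by linarith
    have h4 : (7 / 4 : ℝ) ≤ n := by linarith
    have h5 : (n : ℝ) = 7 / 4 := le_antisymm h3 h4
    have h6 : (4 * n : ℤ) = 7 := by
      have : ((4 * n : ℤ) : ℝ) = 7 := by push_cast; linarith
      exact_mod_cast this
    omega
  -- decay
  have hdec : ∀ s t : ℝ, 0 ≤ s → s ≤ 1 → 2 ≤ t →
      ‖g (P + t + s * Complex.I)‖ ≤ (2 * Real.exp Real.pi * C) * Real.exp (-(3 / 10) * t) := by
    intro s t hs0 hs1 ht
    rw [hg, norm_mul, norm_div, norm_one]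
    have hX : ‖X (P + t + s * Complex.I)‖ = Real.exp (Real.pi * (t - s)) := by
      rw [norm_X, hre, him]
      congr 1
      ring
    have h1 : Real.exp (Real.pi * (t - s)) / 2 ≤ ‖X (P + t + s * Complex.I) - 1‖ := by
      have h2 := norm_sub_norm_le (X (P + t + s * Complex.I)) 1
      rw [norm_one, hX] at h2
      have h3 : (2 : ℝ) ≤ Real.exp (Real.pi * (t - s)) := by
        have h4 := Real.add_one_le_exp (Real.pi * (t - s))
        nlinarith
      linarith
    have h0 := Real.exp_pos (Real.pi * (t - s))
    have h2 : 1 / ‖X (P + t + s * Complex.I) - 1‖ ≤ 2 * Real.exp (-(Real.pi * (t - s))) := by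
      rw [div_le_iff₀ (by linarith), Real.exp_neg]
      have h3 : (Real.exp (Real.pi * (t - s)))⁻¹ * Real.exp (Real.pi * (t - s)) = 1 :=
        inv_mul_cancel₀ h0.ne'
      have h4 : 0 < (Real.exp (Real.pi * (t - s)))⁻¹ := inv_pos.2 h0
      nlinarith
    calc 1 / ‖X (P + t + s * Complex.I) - 1‖ * ‖E (P + t + s * Complex.I)‖
        ≤ (2 * Real.exp (-(Real.pi * (t - s)))) * (C * Real.exp (17 / 6 * t)) := by
          gcongr
          exact hb s t hs0 hs1 (by linarith)
      _ = 2 * C * Real.exp (Real.pi * s + (17 / 6 - Real.pi) * t) := by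
          have : Real.exp (Real.pi * s + (17 / 6 - Real.pi) * t) =
              Real.exp (-(Real.pi * (t - s))) * Real.exp (17 / 6 * t) := by
            rw [← Real.exp_add]; congr 1; ring
          rw [this]; ring
      _ ≤ 2 * C * Real.exp (Real.pi + -(3 / 10) * t) := by
          gcongr
          · nlinarith
          · linarith
      _ = (2 * Real.exp Real.pi * C) * Real.exp (-(3 / 10) * t) := by
          rw [Real.exp_add]; ring
  -- integrability on the ray
  have hint : IntegrableOn (fun t : ℝ => g (P + t)) (Ioi 0) := by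
    refine integrableOn_of_exp_bound (ε := 3 / 10) (T := 2) (C := 2 * Real.exp Real.pi * C)
      (by norm_num) (by norm_num) ?_ fun t ht => ?_
    · intro t ht
      have h1 := (hd0 t ht).continuousAt
      exact (ContinuousAt.comp (f := fun t : ℝ => P + (t : ℂ)) h1 (by fun_prop)).continuousWithinAt
    · have := hdec 0 t le_rfl zero_le_one ht
      simpa using this
  have h1 := Hint_split hint
  have h2 := strip_H (g := g) (r := P + 1) (C := 2 * Real.exp Real.pi * C) (ε := 3 / 10) (T := 2)
    (by norm_num) (by norm_num) hd1 (fun s t hs0 hs1 ht => by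
      have h3 := hdec s (1 + t) hs0 hs1 (by linarith)
      have e : P + ((1 + t : ℝ) : ℂ) + s * Complex.I = P + 1 + t + s * Complex.I := by
        push_cast; ring
      rw [e] at h3
      refine h3.trans ?_
      have h4 : Real.exp (-(3 / 10) * (1 + t)) ≤ Real.exp (-(3 / 10) * t) :=
        Real.exp_le_exp.2 (by linarith)
      exact mul_le_mul_of_nonneg_left h4 (by positivity))
  rw [P_add_τ] at h2
  refine ⟨?_, hd0, hd1⟩
  unfold Bs
  linear_combination -h1 - h2

/-- the regularised function for the vertical rays -/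
theorem ver_identity {E : ℂ → ℂ} {C : ℝ}
    (hE : ∀ s t : ℝ, -(3 / 4) < s → -(3 / 4) < t → DifferentiableAt ℂ E (P + s + t * Complex.I))
    (hb : ∀ s t : ℝ, 0 ≤ s → s ≤ 1 → 0 ≤ t →
      ‖E (P + s + t * Complex.I)‖ ≤ C * Real.exp (17 / 6 * t)) (hE0 : E τ = 0) :
    ∃ g : ℂ → ℂ, (∀ r, r ≠ τ → g r = X r / (1 - X r) * E r) ∧
      Complex.I * (Vint g (P + τ) - Vint g P) = -Bs g ∧
      (∀ s t : ℝ, 0 ≤ s → s ≤ 1 → 0 ≤ t → DifferentiableAt ℂ g (P + s + t * Complex.I)) := by
  have hC : 0 ≤ C := by
    have := hb 0 0 le_rfl zero_le_one le_rfl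
    simp at this
    exact (norm_nonneg _).trans this
  have hpi := pi_bound
  have hre : ∀ s t : ℝ, (P + s + t * Complex.I).re = 3 / 4 + s := by intro s t; simp [P_re]
  have him : ∀ s t : ℝ, (P + s + t * Complex.I).im = 3 / 4 + t := by intro s t; simp [P_im]
  have hτ : τ = P + ((1 / 4 : ℝ) : ℂ) + ((1 / 4 : ℝ) : ℂ) * Complex.I := by
    unfold τ P
    push_cast
    ring
  set D : ℂ → ℂ := fun r => 1 - X r with hD
  have hDd : Differentiable ℂ D := by
    rw [hD]
    exact (differentiable_const 1).sub differentiable_X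
  have hXτ : X τ = 1 := by
    have h1 := X_add_τ 0
    rw [zero_add] at h1
    rw [h1]
    simp [X]
  have hD0 : D τ = 0 := by simp [hD, hXτ]
  -- the open quadrant to the right of the origin
  have hQE : ∀ r ∈ Q, DifferentiableAt ℂ E r := by
    intro r hr
    have h1 := hE (r.re - 3 / 4) (r.im - 3 / 4) (by linarith [hr.1]) (by linarith [hr.2])
    have e : P + ((r.re - 3 / 4 : ℝ) : ℂ) + ((r.im - 3 / 4 : ℝ) : ℂ) * Complex.I = r := by
      apply Complex.ext
      · rw [hre]; ring
      · rw [him]; ring
    rwa [e] at h1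
  have hτQ : τ ∈ Q := by
    constructor <;> simp [τ]
  have hEs : DifferentiableOn ℂ (dslope E τ) Q :=
    (Complex.differentiableOn_dslope (isOpen_Q.mem_nhds hτQ)).2
      fun r hr => (hQE r hr).differentiableWithinAt
  have hDs : DifferentiableOn ℂ (dslope D τ) univ :=
    (Complex.differentiableOn_dslope univ_mem).2 hDd.differentiableOn
  have hDsτ : dslope D τ τ ≠ 0 := by
    rw [dslope_same]
    have h1 : HasDerivAt D (-(Complex.exp ((Real.pi + Real.pi * Complex.I) * τ) *
        (Real.pi + Real.pi * Complex.I))) τ := by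
      have h2 : HasDerivAt (fun r : ℂ => (Real.pi + Real.pi * Complex.I : ℂ) * r)
          (Real.pi + Real.pi * Complex.I) τ := by
        simpa using (hasDerivAt_id τ).const_mul (Real.pi + Real.pi * Complex.I : ℂ)
      exact h2.cexp.const_sub 1
    rw [h1.deriv, neg_ne_zero]
    refine mul_ne_zero (Complex.exp_ne_zero _) ?_
    intro h0
    have := congrArg Complex.re h0
    simp at this
  refine ⟨fun r => X r * (dslope E τ r / dslope D τ r), ?_, ?_⟩
  · intro r hr
    have h1 : dslope E τ r = E r / (r - τ) := by
      rw [dslope_of_ne _ hr, slope_def_field, hE0, sub_zero]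
    have h2 : dslope D τ r = D r / (r - τ) := by
      rw [dslope_of_ne _ hr, slope_def_field, hD0, sub_zero]
    have h3 : r - τ ≠ 0 := sub_ne_zero.2 hr
    simp only
    rw [h1, h2, div_div_div_cancel_right₀ h3, hD]
    ring
  · set g : ℂ → ℂ := fun r => X r * (dslope E τ r / dslope D τ r) with hg
    -- nonvanishing
    have hDne : ∀ s t : ℝ, 0 ≤ s → s ≤ 1 → 0 ≤ t → dslope D τ (P + s + t * Complex.I) ≠ 0 := by
      intro s t hs0 hs1 ht
      by_cases hr : P + s + t * Complex.I = τ
      · rw [hr]; exact hDsτ
      · rw [dslope_of_ne _ hr, slope_def_field, hD0, sub_zero]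
        refine div_ne_zero ?_ (sub_ne_zero.2 hr)
        rw [hD]
        simp only
        rw [sub_ne_zero, ne_comm]
        refine X_ne_one fun n hn hn' => hr ?_
        rw [hre] at hn
        rw [him] at hn'
        have h3 : (n : ℝ) < 2 := by linarith
        have h4 : (0 : ℝ) < n := by linarith
        have h5 : n = 1 := by
          have h6 : n < 2 := by exact_mod_cast h3
          have h7 : 0 < n := by exact_mod_cast h4
          omega
        rw [h5] at hn hn'
        push_cast at hn hn'
        apply Complex.ext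
        · rw [hre, hn]; simp [τ]
        · rw [him, hn']; simp [τ]
    have hmem : ∀ s t : ℝ, 0 ≤ s → 0 ≤ t → P + s + t * Complex.I ∈ Q := by
      intro s t hs ht
      exact ⟨by rw [hre]; linarith, by rw [him]; linarith⟩
    have hd : ∀ s t : ℝ, 0 ≤ s → s ≤ 1 → 0 ≤ t → DifferentiableAt ℂ g (P + s + t * Complex.I) := by
      intro s t hs0 hs1 ht
      have h1 := (hEs.differentiableAt (isOpen_Q.mem_nhds (hmem s t hs0 ht)))
      have h2 := (hDs.differentiableAt (x := P + s + t * Complex.I) univ_mem)
      exact differentiable_X.differentiableAt.mul (h1.div h2 (hDne s t hs0 hs1 ht))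
    -- decay
    have hdec : ∀ s t : ℝ, 0 ≤ s → s ≤ 1 → 2 ≤ t →
        ‖g (P + s + t * Complex.I)‖ ≤ (2 * Real.exp Real.pi * C) * Real.exp (-(3 / 10) * t) := by
      intro s t hs0 hs1 ht
      have hr : P + s + t * Complex.I ≠ τ := by
        intro h0
        have := congrArg Complex.im h0
        rw [him] at this
        simp [τ] at this
        linarith
      have h1 : dslope E τ (P + s + t * Complex.I) = E (P + s + t * Complex.I) /
          (P + s + t * Complex.I - τ) := by
        rw [dslope_of_ne _ hr, slope_def_field, hE0, sub_zero]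
      have h2 : dslope D τ (P + s + t * Complex.I) = D (P + s + t * Complex.I) /
          (P + s + t * Complex.I - τ) := by
        rw [dslope_of_ne _ hr, slope_def_field, hD0, sub_zero]
      have h3 : P + s + t * Complex.I - τ ≠ 0 := sub_ne_zero.2 hr
      rw [hg]
      simp only
      rw [h1, h2, div_div_div_cancel_right₀ h3, norm_mul, norm_div]
      have hX : ‖X (P + s + t * Complex.I)‖ = Real.exp (Real.pi * (s - t)) := by
        rw [norm_X, hre, him]
        congr 1
        ring
      have h4 : 1 / 2 ≤ ‖D (P + s + t * Complex.I)‖ := by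
        have h5 := norm_sub_norm_le 1 (X (P + s + t * Complex.I))
        rw [norm_one, hX] at h5
        have h6 : Real.exp (Real.pi * (s - t)) ≤ 1 / 2 := by
          have h7 : (2 : ℝ) ≤ Real.exp (Real.pi * (t - s)) := by
            have h8 := Real.add_one_le_exp (Real.pi * (t - s))
            nlinarith
          have h9 : Real.pi * (s - t) = -(Real.pi * (t - s)) := by ring
          rw [h9, Real.exp_neg, inv_le_comm₀ (Real.exp_pos _) (by norm_num)]
          linarith
        rw [hD]
        simp only
        linarith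
      calc ‖X (P + s + t * Complex.I)‖ * (‖E (P + s + t * Complex.I)‖ / ‖D (P + s + t * Complex.I)‖)
          ≤ Real.exp (Real.pi * (s - t)) * (C * Real.exp (17 / 6 * t) / (1 / 2)) := by
            rw [hX]
            gcongr
            exact hb s t hs0 hs1 (by linarith)
        _ = 2 * C * Real.exp (Real.pi * s + (17 / 6 - Real.pi) * t) := by
            have : Real.exp (Real.pi * s + (17 / 6 - Real.pi) * t) =
                Real.exp (Real.pi * (s - t)) * Real.exp (17 / 6 * t) := by
              rw [← Real.exp_add]; congr 1; ring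
            rw [this]; ring
        _ ≤ 2 * C * Real.exp (Real.pi + -(3 / 10) * t) := by
            gcongr
            · nlinarith
            · linarith
        _ = (2 * Real.exp Real.pi * C) * Real.exp (-(3 / 10) * t) := by
            rw [Real.exp_add]; ring
    have h1 := strip_V (g := g) (r := P) (C := 2 * Real.exp Real.pi * C) (ε := 3 / 10) (T := 2)
      (by norm_num) (by norm_num) hd hdec
    have hint : IntegrableOn (fun t : ℝ => g (P + 1 + t * Complex.I)) (Ioi 0) := by
      refine integrableOn_of_exp_bound (ε := 3 / 10) (T := 2) (C := 2 * Real.exp Real.pi * C)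
        (by norm_num) (by norm_num) ?_ fun t ht => ?_
      · intro t ht
        have h1 := (hd 1 t zero_le_one le_rfl ht).continuousAt
        rw [Complex.ofReal_one] at h1
        exact (ContinuousAt.comp (f := fun t : ℝ => P + 1 + (t : ℂ) * Complex.I) h1
          (by fun_prop)).continuousWithinAt
      · have := hdec 1 t zero_le_one le_rfl ht
        simpa using this
    have h2 := Vint_split hint
    rw [P_add_τ] at h2
    refine ⟨?_, hd⟩
    unfold Bs
    linear_combination -h1 - Complex.I * h2

theorem cont_h {g : ℂ → ℂ} (h : ∀ t : ℝ, 0 ≤ t → t ≤ 1 → DifferentiableAt ℂ g (P + t)) :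
    IntervalIntegrable (fun t : ℝ => g (P + t)) volume 0 1 := by
  refine ContinuousOn.intervalIntegrable fun t ht => ?_
  rw [uIcc_of_le zero_le_one] at ht
  exact (ContinuousAt.comp (f := fun t : ℝ => P + (t : ℂ)) (h t ht.1 ht.2).continuousAt
    (by fun_prop)).continuousWithinAt

theorem cont_v {g : ℂ → ℂ}
    (h : ∀ t : ℝ, 0 ≤ t → t ≤ 1 → DifferentiableAt ℂ g (P + 1 + t * Complex.I)) :
    IntervalIntegrable (fun t : ℝ => g (P + 1 + t * Complex.I)) volume 0 1 := by
  refine ContinuousOn.intervalIntegrable fun t ht => ?_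
  rw [uIcc_of_le zero_le_one] at ht
  exact (ContinuousAt.comp (f := fun t : ℝ => P + 1 + (t : ℂ) * Complex.I)
    (h t ht.1 ht.2).continuousAt (by fun_prop)).continuousWithinAt

/-- the kernel without exponential factor on the vertical ray -/
theorem integrable_w : IntegrableOn (fun t : ℝ => X (P + t * Complex.I) /
    (1 - X (P + t * Complex.I))) (Ioi 0) := by
  refine integrableOn_of_exp_bound (ε := 3 / 10) (T := 0) (C := 2) (by norm_num) le_rfl ?_ ?_
  · intro t ht
    have h3 : ContinuousAt (fun t : ℝ => X (P + t * Complex.I)) t :=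
      (continuous_X.comp (by fun_prop : Continuous fun t : ℝ => P + t * Complex.I)).continuousAt
    exact (h3.div (continuousAt_const.sub h3) (X_ne_one_vert ht)).continuousWithinAt
  · intro t ht
    rw [norm_div, norm_X, div_le_iff₀ (by have := norm_one_sub_X_vert ht; linarith)]
    have h1 := norm_one_sub_X_vert ht
    have e1 : (P + t * Complex.I).re = 3 / 4 := by simp [P_re]
    have e2 : (P + t * Complex.I).im = 3 / 4 + t := by simp [P_im]
    rw [e1, e2]
    have hpi := pi_bound
    have h2 : Real.exp (Real.pi * (3 / 4 - (3 / 4 + t))) ≤ Real.exp (-(3 / 10) * t) := by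
      apply Real.exp_le_exp.2
      nlinarith
    have h3 := Real.exp_pos (-(3 / 10) * t)
    nlinarith

/-- the main identity for the potential -/
theorem Y_identity {G : ℂ → ℂ} {m : ℂ → ℝ} (h : GD G m) {v : ℂ} (hv : v ∈ Q) :
    Y G (v + τ) - μ * Y G v =
      μ * Bs (fun r => Complex.exp (b * r) * G (v + r)) - τ * G (v + τ) := by
  set c : ℂ := Complex.exp (b * τ) * G (v + τ) with hc
  have hμc : μ * c = G (v + τ) := by
    rw [hc, ← mul_assoc, mul_comm μ, exp_b_τ, one_mul]
  set m' := m v with hm'
  have hm0 : 0 ≤ m' := h.m_nonneg hv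
  set Ev : ℂ → ℂ := fun r => Complex.exp (b * r) * G (v + r) with hEv
  have hEd : ∀ r : ℂ, -(3 / 4) < r.re - 3 / 4 → -(3 / 4) < r.im - 3 / 4 →
      DifferentiableAt ℂ Ev r := by
    intro r h1 h2
    have hmem : v + r ∈ Q := add_mem_Q hv (by linarith) (by linarith)
    have h3 : DifferentiableAt ℂ G (v + r) := h.diff.differentiableAt (isOpen_Q.mem_nhds hmem)
    have h4 : DifferentiableAt ℂ (fun r => G (v + r)) r := h3.comp r (by fun_prop)
    exact DifferentiableAt.mul (by fun_prop) h4
  have hEn : ∀ s t : ℝ, 0 ≤ s → 0 ≤ t → ‖Ev (P + s + t * Complex.I)‖ ≤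
      Real.exp (9 / 4) * m' * Real.exp (17 / 6 * (s + t)) := by
    intro s t hs ht
    have h1 := h.b1 v hv s t hs ht
    rw [hEv]
    simp only
    rw [norm_mul, norm_exp_b]
    have e : v + (P + s + t * Complex.I) = v + P + s + t * Complex.I := by ring
    rw [e]
    have e1 : (P + s + t * Complex.I).re + (P + s + t * Complex.I).im = 3 / 2 + (s + t) := by
      simp [P_re, P_im]; ring
    rw [e1]
    calc Real.exp (3 / 2 * (3 / 2 + (s + t))) * ‖G (v + P + s + t * Complex.I)‖
        ≤ Real.exp (3 / 2 * (3 / 2 + (s + t))) * (m' * Real.exp (4 / 3 * (s + t))) := by gcongr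
      _ = Real.exp (9 / 4) * m' * Real.exp (17 / 6 * (s + t)) := by
        have : Real.exp (3 / 2 * (3 / 2 + (s + t))) * Real.exp (4 / 3 * (s + t)) =
            Real.exp (9 / 4) * Real.exp (17 / 6 * (s + t)) := by
          rw [← Real.exp_add, ← Real.exp_add]; congr 1; ring
        linear_combination m' * this
  -- vertical
  obtain ⟨g, hg, hgV, hgd⟩ := ver_identity (E := fun r => Ev r - c)
    (C := Real.exp (9 / 4) * m' * Real.exp (17 / 6) + ‖c‖)
    (fun s t hs ht => (hEd _ (by simp [P_re]; linarith) (by simp [P_im]; linarith)).sub_const c)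
    (fun s t hs0 hs1 ht => by
      refine (norm_sub_le _ _).trans ?_
      have h1 := hEn s t hs0 ht
      have h2 : Real.exp (17 / 6 * (s + t)) ≤ Real.exp (17 / 6) * Real.exp (17 / 6 * t) := by
        rw [← Real.exp_add]
        apply Real.exp_le_exp.2
        linarith
      have h3 : 1 ≤ Real.exp (17 / 6 * t) := Real.one_le_exp (by positivity)
      have h4 : ‖c‖ ≤ ‖c‖ * Real.exp (17 / 6 * t) := le_mul_of_one_le_right (norm_nonneg _) h3
      have h5 : Real.exp (9 / 4) * m' * Real.exp (17 / 6 * (s + t)) ≤
          Real.exp (9 / 4) * m' * (Real.exp (17 / 6) * Real.exp (17 / 6 * t)) := by gcongr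
      nlinarith)
    (by simp [hEv, hc])
  -- horizontal
  set gm : ℂ → ℂ := fun r => Km r * G (v + r) with hgm
  obtain ⟨hH1, hH2, hH3⟩ := hor_identity (g := gm) (E := Ev)
    (C := Real.exp (9 / 4) * m' * Real.exp (17 / 6))
    (fun r => by simp only [hgm, hEv, Km]; ring)
    (fun s t hs ht => hEd _ (by simp [P_re]; linarith) (by simp [P_im]; linarith))
    (fun s t hs0 hs1 ht => by
      have h1 := hEn t s ht hs0
      refine h1.trans ?_
      have h2 : Real.exp (17 / 6 * (t + s)) ≤ Real.exp (17 / 6) * Real.exp (17 / 6 * t) := by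
        rw [← Real.exp_add]
        apply Real.exp_le_exp.2
        linarith
      rw [mul_assoc (Real.exp (9 / 4) * m')]
      gcongr)
  set wm : ℂ → ℂ := fun r => 1 / (X r - 1) with hwm
  obtain ⟨hW1, hW2, hW3⟩ := hor_identity (g := wm) (E := fun _ => 1) (C := 1)
    (fun r => by simp [hwm]) (fun s t hs ht => differentiableAt_const _)
    (fun s t hs0 hs1 ht => by
      rw [norm_one, one_mul]
      exact Real.one_le_exp (by positivity))
  have hW0 : Bs wm = 0 := by
    have h1 : Hint wm (P + τ) = Hint wm P := by
      unfold Hint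
      congr 1
      funext t
      simp only [hwm]
      have : P + τ + (t : ℂ) = P + t + τ := by ring
      rw [this, X_add_τ]
    rw [h1, sub_self] at hW1
    linear_combination hW1
  -- translate the rays
  have hVert : μ * (Vint g (P + τ) - Vint g P) = V G (v + τ) - μ * V G v := by
    set W := Vint (fun r => X r / (1 - X r)) P with hW
    have hvτ : v + τ ∈ Q := add_mem_Q hv (by simp [τ]) (by simp [τ])
    have e1 : Vint g P = V G v - c * W := by
      rw [hW]
      unfold V Vint
      rw [← integral_const_mul, ← integral_sub (integrable_Kp_mul h hv) (integrable_w.const_mul c)]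
      refine setIntegral_congr_fun measurableSet_Ioi fun t ht => ?_
      have ht0 : (0 : ℝ) < t := ht
      have hr : P + t * Complex.I ≠ τ := by
        intro h0
        have := congrArg Complex.re h0
        simp [P_re, τ] at this
        norm_num at this
      rw [hg _ hr]
      simp only [hEv, Kp]
      ring
    have e2 : μ * Vint g (P + τ) = V G (v + τ) - μ * c * W := by
      rw [hW]
      unfold V Vint
      rw [← integral_const_mul, ← integral_const_mul,
        ← integral_sub (integrable_Kp_mul h hvτ) (integrable_w.const_mul (μ * c))]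
      refine setIntegral_congr_fun measurableSet_Ioi fun t ht => ?_
      have ht0 : (0 : ℝ) < t := ht
      have hr : P + τ + t * Complex.I ≠ τ := by
        intro h0
        have := congrArg Complex.re h0
        simp [P_re, τ] at this
      rw [hg _ hr]
      have e3 : P + τ + t * Complex.I = P + t * Complex.I + τ := by ring
      rw [e3, X_add_τ]
      simp only [hEv, Kp]
      have e4 := exp_b_add_τ (P + t * Complex.I)
      have e5 : v + (P + t * Complex.I + τ) = v + τ + (P + t * Complex.I) := by ring
      rw [e5]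
      linear_combination (X (P + t * Complex.I) / (1 - X (P + t * Complex.I))) *
        G (v + τ + (P + t * Complex.I)) * e4
    rw [mul_sub, e2, e1]
    ring
  have hHor : μ * (Hint gm (P + τ) - Hint gm P) = Hh G (v + τ) - μ * Hh G v := by
    have e2 : μ * Hint gm (P + τ) = Hh G (v + τ) := by
      unfold Hh Hint
      rw [← integral_const_mul]
      refine setIntegral_congr_fun measurableSet_Ioi fun t ht => ?_
      simp only [hgm]
      have e3 : P + τ + (t : ℂ) = P + t + τ := by ring
      rw [e3]
      have e4 := Km_add_τ (P + t)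
      have e5 : v + (P + t + τ) = v + τ + (P + t) := by ring
      rw [e5, ← e4]
      ring
    rw [mul_sub, e2]
    rfl
  -- combine along the short contour
  have hBs : Bs Ev = -Bs g - Bs gm + c * τ := by
    have hX1 : ∀ t : ℝ, 0 ≤ t → t ≤ 1 → X (P + t) ≠ 1 := fun t ht _ h0 =>
      X_ne_one_hor ht (by rw [h0, sub_self])
    have hX2 : ∀ t : ℝ, 0 ≤ t → t ≤ 1 → X (P + 1 + t * Complex.I) ≠ 1 := by
      intro t ht0 ht1
      refine X_ne_one fun n hn hn' => ?_
      have e1 : (P + 1 + t * Complex.I).re = 7 / 4 := by simp [P_re]; norm_num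
      rw [e1] at hn
      have h6 : (4 * n : ℤ) = 7 := by
        have : ((4 * n : ℤ) : ℝ) = 7 := by push_cast; linarith
        exact_mod_cast this
      omega
    have hpt : ∀ r, r ≠ τ → X r ≠ 1 → Ev r = -g r - gm r + (c + c * wm r) := by
      intro r hr hX
      rw [hg r hr]
      have h1 : 1 - X r ≠ 0 := fun h0 => hX (by linear_combination -h0)
      have h2 : X r - 1 ≠ 0 := fun h0 => hX (by linear_combination h0)
      simp only [hgm, hwm, hEv, Km]
      field_simp
      ring
    have hne1 : ∀ t : ℝ, P + (t : ℂ) ≠ τ := by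
      intro t h0
      have := congrArg Complex.im h0
      simp [P_im, τ] at this
      norm_num at this
    have hne2 : ∀ t : ℝ, P + 1 + (t : ℂ) * Complex.I ≠ τ := by
      intro t h0
      have := congrArg Complex.re h0
      simp [P_re, τ] at this
    have i1 : IntervalIntegrable (fun t : ℝ => g (P + t)) volume 0 1 := cont_h fun t ht0 ht1 => by
      have := hgd t 0 ht0 ht1 le_rfl
      simpa using this
    have i2 : IntervalIntegrable (fun t : ℝ => gm (P + t)) volume 0 1 := cont_h fun t ht0 _ =>
      hH2 t ht0
    have i3 : IntervalIntegrable (fun t : ℝ => wm (P + t)) volume 0 1 := cont_h fun t ht0 _ =>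
      hW2 t ht0
    have j1 : IntervalIntegrable (fun t : ℝ => g (P + 1 + t * Complex.I)) volume 0 1 :=
      cont_v fun t ht0 ht1 => by
        have := hgd 1 t zero_le_one le_rfl ht0
        simpa using this
    have j2 : IntervalIntegrable (fun t : ℝ => gm (P + 1 + t * Complex.I)) volume 0 1 :=
      cont_v fun t ht0 ht1 => by
        have := hH3 t 0 ht0 ht1 le_rfl
        simpa using this
    have j3 : IntervalIntegrable (fun t : ℝ => wm (P + 1 + t * Complex.I)) volume 0 1 :=
      cont_v fun t ht0 ht1 => by
        have := hW3 t 0 ht0 ht1 le_rfl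
        simpa using this
    have hh : hseg Ev P = -hseg g P - hseg gm P + (c + c * hseg wm P) := by
      unfold hseg
      rw [intervalIntegral.integral_congr (g := fun t : ℝ => -g (P + t) - gm (P + t) +
        (c + c * wm (P + t))) (fun t ht => by
          rw [uIcc_of_le zero_le_one] at ht
          exact hpt _ (hne1 t) (hX1 t ht.1 ht.2))]
      have n1 : IntervalIntegrable (fun t : ℝ => -g (P + t)) volume 0 1 := i1.neg
      have cc : IntervalIntegrable (fun _ : ℝ => c) volume 0 1 := intervalIntegrable_const
      rw [intervalIntegral.integral_add (n1.sub i2) (cc.add (i3.const_mul c)),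
        intervalIntegral.integral_sub n1 i2, intervalIntegral.integral_neg,
        intervalIntegral.integral_add cc (i3.const_mul c),
        intervalIntegral.integral_const_mul]
      simp
      exact hc.symm
    have hvv : vseg Ev (P + 1) = -vseg g (P + 1) - vseg gm (P + 1) + (c + c * vseg wm (P + 1)) := by
      unfold vseg
      rw [intervalIntegral.integral_congr (g := fun t : ℝ => -g (P + 1 + t * Complex.I) -
        gm (P + 1 + t * Complex.I) + (c + c * wm (P + 1 + t * Complex.I))) (fun t ht => by
          rw [uIcc_of_le zero_le_one] at ht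
          exact hpt _ (hne2 t) (hX2 t ht.1 ht.2))]
      have n1 : IntervalIntegrable (fun t : ℝ => -g (P + 1 + t * Complex.I)) volume 0 1 := j1.neg
      have cc : IntervalIntegrable (fun _ : ℝ => c) volume 0 1 := intervalIntegrable_const
      rw [intervalIntegral.integral_add (n1.sub j2) (cc.add (j3.const_mul c)),
        intervalIntegral.integral_sub n1 j2, intervalIntegral.integral_neg,
        intervalIntegral.integral_add cc (j3.const_mul c),
        intervalIntegral.integral_const_mul]
      simp
      exact hc.symm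
    unfold Bs at hW0 ⊢
    rw [hh, hvv]
    unfold τ
    linear_combination c * hW0
  have hYv : Y G (v + τ) - μ * Y G v = Complex.I * (V G (v + τ) - μ * V G v) +
      (Hh G (v + τ) - μ * Hh G v) := by
    unfold Y; ring
  rw [hYv, ← hVert, ← hHor, hBs]
  linear_combination μ * hgV + μ * hH1 - τ * hμc

end Pool.Agent.Helper380.B5
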