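import Pool.Agent.Helper380.B5

set_option autoImplicit false

open Metric Set MeasureTheory Filter Topology Pool.Agent.Helper380.B2 Pool.Agent.Helper380.B3
open Pool.Agent.Helper380.B4 Pool.Agent.Helper380.B5

namespace Pool.Agent.Helper380.B6

theorem prim_diff {C Φ : ℂ → ℂ} (hC : ∀ q ∈ Q, HasDerivAt C (Φ q) q) (hΦ : ContinuousOn Φ Q)
    {w : ℂ} (hw : w ∈ Q) : C (w + τ) - C w = hseg Φ w + Complex.I * vseg Φ (w + 1) := by
  have h1 : hseg Φ w = C (w + 1) - C w := by
    have hmem : ∀ t ∈ uIcc (0 : ℝ) 1, w + (t : ℂ) ∈ Q := by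
      intro t ht
      rw [uIcc_of_le zero_le_one] at ht
      exact add_mem_Q hw (by simpa using ht.1) (by simp)
    have h2 := intervalIntegral.integral_eq_sub_of_hasDerivAt (a := 0) (b := 1)
      (f := fun t : ℝ => C (w + t)) (f' := fun t : ℝ => Φ (w + t)) (fun t ht => by
        have h3 : HasDerivAt (fun t : ℝ => w + (t : ℂ)) 1 t := by
          simpa using (hasDerivAt_id t).ofReal_comp.const_add w
        have h4 := (hC _ (hmem t ht)).comp t h3
        rw [mul_one] at h4
        exact h4)
      (ContinuousOn.intervalIntegrable fun t ht => by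
        have h5 : ContinuousAt Φ (w + (t : ℂ)) := hΦ.continuousAt (isOpen_Q.mem_nhds (hmem t ht))
        exact (ContinuousAt.comp (f := fun t : ℝ => w + (t : ℂ)) h5
          (by fun_prop)).continuousWithinAt)
    unfold hseg
    rw [h2]
    simp
  have h1' : Complex.I * vseg Φ (w + 1) = C (w + 1 + Complex.I) - C (w + 1) := by
    have hmem : ∀ t ∈ uIcc (0 : ℝ) 1, w + 1 + (t : ℂ) * Complex.I ∈ Q := by
      intro t ht
      rw [uIcc_of_le zero_le_one] at ht
      rw [add_assoc]
      exact add_mem_Q hw (by simp) (by simpa using ht.1)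
    have h2 := intervalIntegral.integral_eq_sub_of_hasDerivAt (a := 0) (b := 1)
      (f := fun t : ℝ => C (w + 1 + t * Complex.I))
      (f' := fun t : ℝ => Φ (w + 1 + t * Complex.I) * Complex.I) (fun t ht => by
        have h3 : HasDerivAt (fun t : ℝ => w + 1 + (t : ℂ) * Complex.I) Complex.I t := by
          simpa using ((hasDerivAt_id t).ofReal_comp.mul_const Complex.I).const_add (w + 1)
        exact (hC _ (hmem t ht)).comp t h3)
      (ContinuousOn.intervalIntegrable fun t ht => by
        have h5 : ContinuousAt Φ (w + 1 + (t : ℂ) * Complex.I) :=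
          hΦ.continuousAt (isOpen_Q.mem_nhds (hmem t ht))
        exact ((ContinuousAt.comp (f := fun t : ℝ => w + 1 + (t : ℂ) * Complex.I) h5
          (by fun_prop)).mul continuousAt_const).continuousWithinAt)
    unfold vseg
    rw [mul_comm, ← intervalIntegral.integral_mul_const, h2]
    simp
  rw [h1, h1']
  have e : w + τ = w + 1 + Complex.I := by unfold τ; ring
  rw [e]
  ring

/-- relation between the primitive and the short contour -/
theorem exists_f {G : ℂ → ℂ} {m : ℂ → ℝ} (h : GD G m) : ∃ f : ℂ → ℂ, DifferentiableOn ℂ f Q ∧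
    (∀ v ∈ Q, ‖f v‖ ≤ 6 * m v) ∧ ∀ v ∈ Q, Complex.exp (9 / 4) * (f (v + τ) - μ * f v) =
      μ * Bs (fun r => Complex.exp (b * r) * G (v + r)) := by
  set Φ : ℂ → ℂ := fun w => Complex.exp (b * (w - P)) * G w with hΦ
  have hΦd : DifferentiableOn ℂ Φ Q := DifferentiableOn.mul (by fun_prop) h.diff
  obtain ⟨C, hC⟩ := exists_primitive hΦd
  have hPQ : P ∈ Q := ⟨by rw [P_re]; norm_num, by rw [P_im]; norm_num⟩
  refine ⟨fun v => Complex.exp (-(b * v)) * (C (v + P) - C P), ?_, ?_, ?_⟩
  · intro v hv
    have h1 : v + P ∈ Q := add_mem_Q hv (by rw [P_re]; norm_num) (by rw [P_im]; norm_num)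
    have h2 : DifferentiableAt ℂ (fun v => C (v + P)) v :=
      (hC _ h1).differentiableAt.comp v (by fun_prop)
    exact (DifferentiableAt.mul (by fun_prop) (h2.sub_const _)).differentiableWithinAt
  · intro v hv
    set L := v.re + v.im with hL
    have hL0 : 0 < L := add_pos hv.1 hv.2
    have hvL : ‖v‖ ≤ L := by
      have := Complex.norm_le_abs_re_add_abs_im v
      rwa [abs_of_pos hv.1, abs_of_pos hv.2] at this
    have hm := h.m_nonneg hv
    have hmem : ∀ t : ℝ, 0 ≤ t → P + t * v ∈ Q := fun t ht =>
      add_mem_Q hPQ (by simp; exact mul_nonneg ht hv.1.le) (by simp; exact mul_nonneg ht hv.2.le)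
    have hder : ∀ t : ℝ, 0 ≤ t → HasDerivAt
        (fun t : ℝ => Complex.exp (-(b * v)) * (C (P + t * v) - C P))
        (Complex.exp (-(b * v)) * (Φ (P + t * v) * v)) t := by
      intro t ht
      have h3 : HasDerivAt (fun t : ℝ => P + (t : ℂ) * v) v t := by
        simpa using ((hasDerivAt_id t).ofReal_comp.mul_const v).const_add P
      have h4 : HasDerivAt (fun t : ℝ => C (P + t * v)) (Φ (P + t * v) * v) t :=
        (hC _ (hmem t ht)).comp t h3
      exact (h4.sub_const _).const_mul _
    have key := image_norm_le_of_norm_deriv_right_le_deriv_boundary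
      (f := fun t : ℝ => Complex.exp (-(b * v)) * (C (P + t * v) - C P)) (a := 0) (b := 1)
      (f' := fun t : ℝ => Complex.exp (-(b * v)) * (Φ (P + t * v) * v))
      (B := fun t : ℝ => 6 * m v * Real.exp (-(1 / 6) * L * (1 - t)))
      (B' := fun t : ℝ => m v * L * Real.exp (-(1 / 6) * L * (1 - t)))
      (fun t ht => (hder t ht.1).continuousAt.continuousWithinAt)
      (fun t ht => (hder t ht.1).hasDerivWithinAt)
      (by
        simp only [Complex.ofReal_zero, zero_mul, add_zero, sub_self, mul_zero, norm_zero]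
        positivity)
      (fun t => by
        have h5 : HasDerivAt (fun t : ℝ => -(1 / 6) * L * (1 - t)) (-(1 / 6) * L * -1) t := by
          exact (((hasDerivAt_id t).const_sub 1)).const_mul _
        have h6 := (h5.exp).const_mul (6 * m v)
        refine h6.congr_deriv ?_
        ring)
      (fun t ht => by
        have ht0 : 0 ≤ t := ht.1
        have ht1 : t ≤ 1 := ht.2.le
        have h7 := h.b2 v hv t ht0 ht1
        rw [norm_mul, norm_mul, hΦ]
        simp only
        rw [norm_mul]
        have e1 : P + t * v - P = t * v := by ring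
        have e2 : -(b * v) = b * (-v) := by ring
        rw [e1, e2, norm_exp_b, norm_exp_b]
        have e3 : (-v).re + (-v).im = -L := by simp [hL]; ring
        have e4 : ((t : ℂ) * v).re + ((t : ℂ) * v).im = t * L := by simp [hL]; ring
        rw [e3, e4]
        calc Real.exp (3 / 2 * -L) * (Real.exp (3 / 2 * (t * L)) * ‖G (P + t * v)‖ * ‖v‖)
            ≤ Real.exp (3 / 2 * -L) * (Real.exp (3 / 2 * (t * L)) *
              (m v * Real.exp (4 / 3 * L * (1 - t))) * L) := by gcongr
          _ = m v * L * Real.exp (-(1 / 6) * L * (1 - t)) := by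
            have : Real.exp (-(1 / 6) * L * (1 - t)) = Real.exp (3 / 2 * -L) *
                (Real.exp (3 / 2 * (t * L)) * Real.exp (4 / 3 * L * (1 - t))) := by
              rw [← Real.exp_add, ← Real.exp_add]; congr 1; ring
            rw [this]
            ring)
      (x := 1) ⟨zero_le_one, le_rfl⟩
    simp only [Complex.ofReal_one, one_mul, sub_self, mul_zero, Real.exp_zero, mul_one] at key
    show ‖Complex.exp (-(b * v)) * (C (v + P) - C P)‖ ≤ 6 * m v
    rw [add_comm v P]
    exact key
  · intro v hv
    have hvP : v + P ∈ Q := add_mem_Q hv (by rw [P_re]; norm_num) (by rw [P_im]; norm_num)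
    have h1 := prim_diff hC hΦd.continuousOn hvP
    have e1 : hseg Φ (v + P) = Complex.exp (b * v - b * P) *
        hseg (fun r => Complex.exp (b * r) * G (v + r)) P := by
      unfold hseg
      rw [← intervalIntegral.integral_const_mul]
      refine intervalIntegral.integral_congr fun t _ => ?_
      simp only [hΦ]
      rw [← mul_assoc, ← Complex.exp_add]
      have e2 : b * (v + P + t - P) = b * v - b * P + b * (P + t) := by ring
      have e3 : v + P + (t : ℂ) = v + (P + t) := by ring
      rw [e2, e3]
    have e2 : vseg Φ (v + P + 1) = Complex.exp (b * v - b * P) *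
        vseg (fun r => Complex.exp (b * r) * G (v + r)) (P + 1) := by
      unfold vseg
      rw [← intervalIntegral.integral_const_mul]
      refine intervalIntegral.integral_congr fun t _ => ?_
      simp only [hΦ]
      rw [← mul_assoc, ← Complex.exp_add]
      have e2 : b * (v + P + 1 + t * Complex.I - P) = b * v - b * P + b * (P + 1 + t * Complex.I) := by
        ring
      have e3 : v + P + 1 + (t : ℂ) * Complex.I = v + (P + 1 + t * Complex.I) := by ring
      rw [e2, e3]
    rw [e1, e2] at h1
    have e3 : v + τ + P = v + P + τ := by ring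
    have e4 : Complex.exp (-(b * (v + τ))) = μ * Complex.exp (-(b * v)) := by
      have h5 := exp_b_τ
      have h6 : Complex.exp (-(b * (v + τ))) * Complex.exp (b * τ) = Complex.exp (-(b * v)) := by
        rw [← Complex.exp_add]; congr 1; ring
      rw [← h6]
      linear_combination -Complex.exp (-(b * (v + τ))) * h5
    have e5 : Complex.exp (9 / 4) * (Complex.exp (-(b * v)) * Complex.exp (b * v - b * P)) = 1 := by
      rw [← Complex.exp_add, ← Complex.exp_add, b_mul_P, ← Complex.exp_zero]
      congr 1
      ring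
    show Complex.exp (9 / 4) * (Complex.exp (-(b * (v + τ))) * (C (v + τ + P) - C P) -
      μ * (Complex.exp (-(b * v)) * (C (v + P) - C P))) =
      μ * Bs (fun r => Complex.exp (b * r) * G (v + r))
    rw [e3, e4]
    unfold Bs
    linear_combination Complex.exp (9 / 4) * μ * Complex.exp (-(b * v)) * h1 +
      μ * (hseg (fun r => Complex.exp (b * r) * G (v + r)) P +
        Complex.I * vseg (fun r => Complex.exp (b * r) * G (v + r)) (P + 1)) * e5

/-- solution of the difference equation -/
theorem exists_solution {G : ℂ → ℂ} {m : ℂ → ℝ} (h : GD G m) : ∃ F : ℂ → ℂ, ∃ C : ℝ, 0 ≤ C ∧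
    DifferentiableOn ℂ F Q ∧ (∀ v ∈ Q, ‖F v‖ ≤ C * (m v + ‖G v‖)) ∧
    ∀ v ∈ Q, F (v + τ) - μ * F v = G v := by
  obtain ⟨f, hf1, hf2, hf3⟩ := exists_f h
  have hY1 := differentiableOn_Y h
  set K : ℝ := ‖(τ⁻¹ : ℂ)‖ * (Real.exp (9 / 4) * 6 + 2 * (2 * Real.exp (9 / 4) * (10 / 3))) with hK
  have hK0 : 0 ≤ K := by positivity
  refine ⟨fun v => ((Complex.exp (9 / 4) * f v - Y G v) / τ - G v) / μ,
    ‖(μ⁻¹ : ℂ)‖ * (K + 1), by positivity, ?_, ?_, ?_⟩
  · exact (((hf1.const_mul _).sub hY1).div_const _ |>.sub h.diff).div_const _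
  · intro v hv
    have hm := h.m_nonneg hv
    have h1 := hf2 v hv
    have h2 := norm_Y_le h hv
    have h3 : ‖(Complex.exp (9 / 4) * f v - Y G v) / τ‖ ≤ K * m v := by
      rw [div_eq_inv_mul, norm_mul, hK, mul_assoc]
      gcongr
      refine (norm_sub_le _ _).trans ?_
      rw [norm_mul]
      have h4 : ‖Complex.exp (9 / 4)‖ = Real.exp (9 / 4) := by
        rw [Complex.norm_exp]
        congr 1
        norm_num
      rw [h4]
      have h5 : Real.exp (9 / 4) * ‖f v‖ ≤ Real.exp (9 / 4) * (6 * m v) := by gcongr
      linarith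
    show ‖((Complex.exp (9 / 4) * f v - Y G v) / τ - G v) / μ‖ ≤ _
    rw [div_eq_inv_mul _ μ, norm_mul, mul_assoc]
    gcongr
    refine (norm_sub_le _ _).trans ?_
    have h6 := norm_nonneg (G v)
    nlinarith
  · intro v hv
    have h1 := hf3 v hv
    have h2 := Y_identity h hv
    have hτ := τ_ne
    have hμ := μ_ne
    show ((Complex.exp (9 / 4) * f (v + τ) - Y G (v + τ)) / τ - G (v + τ)) / μ -
      μ * (((Complex.exp (9 / 4) * f v - Y G v) / τ - G v) / μ) = G v
    field_simp
    linear_combination h1 - h2

/-- the kernel is spanned by one exponential -/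
theorem kernel {G : ℂ → ℂ} {m : ℂ → ℝ} (h : GD G m) (hG : ∀ v ∈ Q, G (v + τ) = μ * G v) :
    ∃ c : ℂ, ∀ v ∈ Q, G v = c * Complex.exp (-(b * v)) := by
  set c : ℂ → ℂ := fun w => Complex.exp (b * w) * G w with hc
  have hcd : DifferentiableOn ℂ c Q := DifferentiableOn.mul (by fun_prop) h.diff
  obtain ⟨C, hC⟩ := exists_primitive hcd
  have hτQ : ∀ v ∈ Q, v + τ ∈ Q := fun v hv => add_mem_Q hv (by simp [τ]) (by simp [τ])
  have hPQ : ∀ v ∈ Q, v + P ∈ Q := fun v hv =>
    add_mem_Q hv (by rw [P_re]; norm_num) (by rw [P_im]; norm_num)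
  -- the potential is in the kernel as well
  have hYk : ∀ v ∈ Q, Y G (v + τ) = μ * Y G v := by
    intro v hv
    have h1 : V G (v + τ) = μ * V G v := by
      unfold V Vint
      rw [← MeasureTheory.integral_const_mul]
      refine setIntegral_congr_fun measurableSet_Ioi fun t ht => ?_
      have ht0 : (0 : ℝ) < t := ht
      have hmem : v + (P + t * Complex.I) ∈ Q :=
        add_mem_Q hv (by simp [P_re]; norm_num) (by simp [P_im]; linarith)
      have e : v + τ + (P + t * Complex.I) = v + (P + t * Complex.I) + τ := by ring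
      simp only
      rw [e, hG _ hmem]
      ring
    have h2 : Hh G (v + τ) = μ * Hh G v := by
      unfold Hh Hint
      rw [← MeasureTheory.integral_const_mul]
      refine setIntegral_congr_fun measurableSet_Ioi fun t ht => ?_
      have ht0 : (0 : ℝ) < t := ht
      have hmem : v + (P + t) ∈ Q :=
        add_mem_Q hv (by simp [P_re]; linarith) (by simp [P_im]; norm_num)
      have e : v + τ + (P + t) = v + (P + t) + τ := by ring
      simp only
      rw [e, hG _ hmem]
      ring
    unfold Y
    rw [h1, h2]
    ring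
  have hcC : ∀ v ∈ Q, τ * c v = C (v + P + τ) - C (v + P) := by
    intro v hv
    have h1 := Y_identity h hv
    rw [hYk v hv, sub_self, hG v hv] at h1
    have h2 := prim_diff hC hcd.continuousOn (hPQ v hv)
    have e1 : hseg c (v + P) = Complex.exp (b * v) *
        hseg (fun r => Complex.exp (b * r) * G (v + r)) P := by
      unfold hseg
      rw [← intervalIntegral.integral_const_mul]
      refine intervalIntegral.integral_congr fun t _ => ?_
      simp only [hc]
      rw [← mul_assoc, ← Complex.exp_add]
      have e2 : b * (v + P + t) = b * v + b * (P + t) := by ring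
      have e3 : v + P + (t : ℂ) = v + (P + t) := by ring
      rw [e2, e3]
    have e2 : vseg c (v + P + 1) = Complex.exp (b * v) *
        vseg (fun r => Complex.exp (b * r) * G (v + r)) (P + 1) := by
      unfold vseg
      rw [← intervalIntegral.integral_const_mul]
      refine intervalIntegral.integral_congr fun t _ => ?_
      simp only [hc]
      rw [← mul_assoc, ← Complex.exp_add]
      have e2 : b * (v + P + 1 + t * Complex.I) = b * v + b * (P + 1 + t * Complex.I) := by
        ring
      have e3 : v + P + 1 + (t : ℂ) * Complex.I = v + (P + 1 + t * Complex.I) := by ring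
      rw [e2, e3]
    rw [h2, e1, e2]
    unfold Bs at h1
    have h3 : μ * (τ * G v) = μ * (hseg (fun r => Complex.exp (b * r) * G (v + r)) P +
        Complex.I * vseg (fun r => Complex.exp (b * r) * G (v + r)) (P + 1)) := by
      linear_combination h1
    have h4 := mul_left_cancel₀ μ_ne h3
    simp only [hc]
    linear_combination Complex.exp (b * v) * h4
  have hper : ∀ v ∈ Q, c (v + τ) = c v := by
    intro v hv
    simp only [hc]
    rw [hG v hv]
    have := exp_b_add_τ v
    linear_combination G v * this
  have hderiv : ∀ v ∈ Q, deriv c v = 0 := by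
    intro v hv
    have hcv : HasDerivAt c (deriv c v) v :=
      (hcd.differentiableAt (isOpen_Q.mem_nhds hv)).hasDerivAt
    have h1 : HasDerivAt (fun v => τ * c v) (τ * deriv c v) v := hcv.const_mul τ
    have h2 : HasDerivAt (fun v => C (v + P + τ) - C (v + P)) (c (v + P + τ) - c (v + P)) v := by
      have h3 : HasDerivAt (fun v => C (v + P + τ)) (c (v + P + τ)) v := by
        have h4 : HasDerivAt (fun v : ℂ => v + P + τ) 1 v :=
          ((hasDerivAt_id v).add_const P).add_const τ
        have h5 := (hC _ (hτQ _ (hPQ v hv))).comp v h4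
        rw [mul_one] at h5
        exact h5
      have h3' : HasDerivAt (fun v => C (v + P)) (c (v + P)) v := by
        have h4 : HasDerivAt (fun v : ℂ => v + P) 1 v := (hasDerivAt_id v).add_const P
        have h5 := (hC _ (hPQ v hv)).comp v h4
        rw [mul_one] at h5
        exact h5
      exact h3.sub h3'
    rw [hper _ (hPQ v hv), sub_self] at h2
    have h3 : HasDerivAt (fun v => τ * c v) 0 v := by
      refine h2.congr_of_eventuallyEq ?_
      filter_upwards [isOpen_Q.mem_nhds hv] with w hw
      exact hcC w hw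
    have h4 := h1.unique h3
    exact (mul_eq_zero.1 h4).resolve_left τ_ne
  have hconv : Convex ℝ Q := by
    have h1 : Convex ℝ {q : ℂ | 0 < q.re} := convex_halfSpace_re_gt 0
    have h2 : Convex ℝ {q : ℂ | 0 < q.im} := convex_halfSpace_im_gt 0
    exact h1.inter h2
  obtain ⟨c0, hc0⟩ := isOpen_Q.exists_is_const_of_deriv_eq_zero hconv.isPreconnected hcd
    (fun v hv => hderiv v hv)
  refine ⟨c0, fun v hv => ?_⟩
  have h1 := hc0 v hv
  simp only [hc] at h1
  rw [← h1]
  have h2 : Complex.exp (b * v) * Complex.exp (-(b * v)) = 1 := by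
    rw [← Complex.exp_add, add_neg_cancel, Complex.exp_zero]
  linear_combination -G v * h2

end Pool.Agent.Helper380.B6
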