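import Pool.Agent.Helper380.B1
import Pool.Agent.Helper380.B6

set_option autoImplicit false

open Metric Set MeasureTheory Filter Topology Pool.Agent.Helper380.B1
open Pool.Agent.Helper380.B2 Pool.Agent.Helper380.B3
open Pool.Agent.Helper380.B4 Pool.Agent.Helper380.B5 Pool.Agent.Helper380.B6

namespace Pool.Agent.Helper380.B7

/-- membership in the Hardy space -/
def HS (f : ℂ → ℂ) : Prop := DifferentiableOn ℂ f (ball 0 1) ∧ (∀ z : ℂ, z ∉ ball (0 : ℂ) 1 → f z = 0) ∧
  ∃ M : ℝ, ∀ r : ℝ, 0 ≤ r → r < 1 → mean f r ≤ M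

/-- the symbol -/
noncomputable def phi (z : ℂ) : ℂ := psi (sigma z + τ)

theorem add_τ_mem {v : ℂ} (hv : v ∈ Q) : v + τ ∈ Q := add_mem_Q hv (by simp [τ]) (by simp [τ])

theorem P_mem : P ∈ Q := ⟨by rw [P_re]; norm_num, by rw [P_im]; norm_num⟩

theorem add_P_mem {v : ℂ} (hv : v ∈ Q) : v + P ∈ Q := add_mem_Q hv P_mem.1.le P_mem.2.le

theorem phi_mem {z : ℂ} (hz : z ∈ ball (0 : ℂ) 1) : phi z ∈ ball (0 : ℂ) 1 :=
  psi_mem (add_τ_mem (sigma_mem hz))

theorem sigma_phi {z : ℂ} (hz : z ∈ ball (0 : ℂ) 1) : sigma (phi z) = sigma z + τ :=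
  sigma_psi (add_τ_mem (sigma_mem hz))

theorem phi_ne {z : ℂ} (hz : z ∈ ball (0 : ℂ) 1) : phi z ≠ z := by
  intro h
  have h1 := sigma_phi hz
  rw [h] at h1
  exact τ_ne (by linear_combination -h1)

theorem differentiableOn_phi : DifferentiableOn ℂ phi (ball 0 1) :=
  differentiableOn_psi.comp (differentiableOn_sigma.add_const τ)
    (fun _ hz => add_τ_mem (sigma_mem hz))

theorem GD_of_majorant {g h : ℂ → ℂ} (hg : DifferentiableOn ℂ g (ball 0 1))
    (hh : DifferentiableOn ℂ h (ball 0 1))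
    (hm : ∀ z ∈ ball (0 : ℂ) 1, 1 ≤ (h z).re ∧ ‖g z‖ ^ 2 ≤ (h z).re) :
    GD (fun q => g (psi q)) (fun v => Real.sqrt (h (psi (v + P))).re) := by
  have hH : DifferentiableOn ℂ (fun q => h (psi q)) Q :=
    hh.comp differentiableOn_psi fun _ hq => psi_mem hq
  have hpos : ∀ q ∈ Q, 0 < ((fun q => h (psi q)) q).re := fun q hq =>
    lt_of_lt_of_le one_pos (hm _ (psi_mem hq)).1
  have hfin : ∀ {q v : ℂ} {E : ℝ}, q ∈ Q → v ∈ Q →
      (h (psi q)).re ≤ Real.exp (2 * E) * (h (psi (v + P))).re →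
      ‖g (psi q)‖ ≤ Real.sqrt (h (psi (v + P))).re * Real.exp E := by
    intro q v E hq hv hle
    have h1 := (hm _ (psi_mem hq)).2
    have h2 := hpos _ (add_P_mem hv)
    refine abs_le_of_sq_le_sq' ?_ (by positivity) |>.2
    rw [mul_pow, Real.sq_sqrt h2.le, ← Real.exp_nat_mul]
    refine (h1.trans hle).trans (le_of_eq ?_)
    push_cast
    ring
  refine ⟨hg.comp differentiableOn_psi fun _ hq => psi_mem hq, ?_, ?_, ?_⟩
  · refine ContinuousOn.sqrt ?_
    refine Complex.continuous_re.comp_continuousOn ?_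
    exact hH.continuousOn.comp (by fun_prop) fun v hv => add_P_mem hv
  · intro v hv s t hs ht
    have hvP := add_P_mem hv
    have hv1 := hv.1
    have hv2 := hv.2
    have h1 := growth hH hpos (q₀ := v + P) (δ := 1) (p := 3 / 4) (T := s) (by norm_num) hs
      (fun x hx => by
        have hx0 := hx.1
        constructor
        · simp [P_re]; linarith
        · simp [P_im]; linarith)
    have h2 := growth hH hpos (q₀ := v + P + s) (δ := Complex.I) (p := 3 / 4) (T := t)
      (by norm_num) ht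
      (fun x hx => by
        have hx0 := hx.1
        constructor
        · simp [P_re]; linarith
        · simp [P_im]; linarith)
    refine hfin (add_mem_Q (add_mem_Q hvP (by simpa using hs) (by simp)) (by simp)
      (by simpa using ht)) hv ?_
    simp only [mul_one, norm_one, Complex.norm_I] at h1 h2
    have e : Real.exp (2 * (4 / 3 * (s + t))) =
        Real.exp (2 / (3 / 4) * t) * Real.exp (2 / (3 / 4) * s) := by
      rw [← Real.exp_add]; congr 1; ring
    rw [e, mul_assoc]
    exact h2.trans (mul_le_mul_of_nonneg_left h1 (Real.exp_pos _).le)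
  · intro v hv t ht0 ht1
    have hv1 := hv.1
    have hv2 := hv.2
    have hvL : ‖v‖ ≤ v.re + v.im := by
      have := Complex.norm_le_abs_re_add_abs_im v
      rwa [abs_of_pos hv.1, abs_of_pos hv.2] at this
    have h1 := growth_rev hH hpos (q₀ := P + t * v) (δ := v) (p := 3 / 4) (T := 1 - t)
      (by norm_num) (by linarith)
      (fun x hx => by
        have hx0 := hx.1
        have hx1 : 0 ≤ x * v.re := mul_nonneg hx0 hv1.le
        have hx2 : 0 ≤ x * v.im := mul_nonneg hx0 hv2.le
        have hx3 : 0 ≤ t * v.re := mul_nonneg ht0 hv1.le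
        have hx4 : 0 ≤ t * v.im := mul_nonneg ht0 hv2.le
        constructor
        · simp [P_re]; linarith
        · simp [P_im]; linarith)
    have hmem : P + t * v ∈ Q := add_mem_Q P_mem (by simp; exact mul_nonneg ht0 hv1.le)
      (by simp; exact mul_nonneg ht0 hv2.le)
    refine hfin hmem hv ?_
    have e : P + (t : ℂ) * v + ((1 - t : ℝ) : ℂ) * v = v + P := by push_cast; ring
    rw [e] at h1
    refine h1.trans ?_
    have h2 := (hpos _ (add_P_mem hv)).le
    refine mul_le_mul_of_nonneg_right (Real.exp_le_exp.2 ?_) h2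
    have h3 : ‖v‖ * (1 - t) ≤ (v.re + v.im) * (1 - t) :=
      mul_le_mul_of_nonneg_right hvL (by linarith)
    calc 2 * ‖v‖ / (3 / 4) * (1 - t) = 8 / 3 * (‖v‖ * (1 - t)) := by ring
      _ ≤ 8 / 3 * ((v.re + v.im) * (1 - t)) := by linarith
      _ = 2 * (4 / 3 * (v.re + v.im) * (1 - t)) := by ring

/-- the operator is onto -/
theorem onto {g : ℂ → ℂ} (hg : HS g) : ∃ f : ℂ → ℂ, HS f ∧
    (ball (0 : ℂ) 1).indicator (f ∘ phi) - μ • f = g := by
  obtain ⟨hg1, hg2, M, hM⟩ := hg
  obtain ⟨h, hh, hm⟩ := exists_majorant hg1 hM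
  have hGD := GD_of_majorant hg1 hh hm
  obtain ⟨F, C, hC, hF1, hF2, hF3⟩ := exists_solution hGD
  refine ⟨(ball (0 : ℂ) 1).indicator (fun z => F (sigma z)), ⟨?_, ?_, ?_⟩, ?_⟩
  · have h1 : DifferentiableOn ℂ (fun z => F (sigma z)) (ball 0 1) :=
      hF1.comp differentiableOn_sigma fun _ hz => sigma_mem hz
    exact h1.congr fun z hz => indicator_of_mem hz _
  · intro z hz
    exact indicator_of_notMem hz _
  · have h1 : DifferentiableOn ℂ ((ball (0 : ℂ) 1).indicator (fun z => F (sigma z))) (ball 0 1) := by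
      have h1 : DifferentiableOn ℂ (fun z => F (sigma z)) (ball 0 1) :=
        hF1.comp differentiableOn_sigma fun _ hz => sigma_mem hz
      exact h1.congr fun z hz => indicator_of_mem hz _
    have h2 : DifferentiableOn ℂ (fun z => ((2 * C ^ 2 : ℝ) : ℂ) *
        (h (psi (sigma z + P)) + h z)) (ball 0 1) := by
      refine DifferentiableOn.const_mul (DifferentiableOn.add ?_ hh) _
      exact hh.comp (differentiableOn_psi.comp (differentiableOn_sigma.add_const P)
        fun _ hz => add_P_mem (sigma_mem hz)) fun z hz => psi_mem (add_P_mem (sigma_mem hz))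
    refine ⟨_, fun r hr0 hr1 => mean_le_of_majorant h1 h2 ?_ hr0 hr1⟩
    intro z hz
    rw [indicator_of_mem hz]
    have h3 := hF2 _ (sigma_mem hz)
    simp only [psi_sigma hz] at h3
    have h4 := (hm _ (psi_mem (add_P_mem (sigma_mem hz)))).1
    have h5 := (hm z hz).2
    have h6 := Real.sq_sqrt (zero_le_one.trans h4)
    have h7 := Real.sqrt_nonneg (h (psi (sigma z + P))).re
    rw [Complex.re_ofReal_mul, Complex.add_re]
    set x := Real.sqrt (h (psi (sigma z + P))).re with hx
    set y := ‖g z‖ with hy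
    have hy0 : 0 ≤ y := norm_nonneg _
    have h8 : ‖F (sigma z)‖ ^ 2 ≤ (C * (x + y)) ^ 2 := by
      gcongr
    have h9 : (C * (x + y)) ^ 2 ≤ 2 * C ^ 2 * (x ^ 2 + y ^ 2) := by
      have := mul_nonneg (sq_nonneg C) (sq_nonneg (x - y))
      nlinarith
    rw [← h6]
    refine (h8.trans h9).trans ?_
    gcongr
  · funext z
    by_cases hz : z ∈ ball (0 : ℂ) 1
    · simp only [Pi.sub_apply, Pi.smul_apply, smul_eq_mul]
      rw [indicator_of_mem hz, Function.comp_apply, indicator_of_mem (phi_mem hz),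
        indicator_of_mem hz, sigma_phi hz]
      have h1 := hF3 _ (sigma_mem hz)
      simp only [psi_sigma hz] at h1
      exact h1
    · simp only [Pi.sub_apply, Pi.smul_apply, smul_eq_mul]
      rw [indicator_of_notMem hz, indicator_of_notMem hz, hg2 z hz]
      simp

/-- the eigenfunction -/
noncomputable def e₀ : ℂ → ℂ := (ball (0 : ℂ) 1).indicator fun z => Complex.exp (-(b * sigma z))

theorem ker {f : ℂ → ℂ} (hf : HS f) (h : (ball (0 : ℂ) 1).indicator (f ∘ phi) = μ • f) :
    ∃ c : ℂ, f = c • e₀ := by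
  obtain ⟨hf1, hf2, M, hM⟩ := hf
  obtain ⟨h', hh, hm⟩ := exists_majorant hf1 hM
  have hGD := GD_of_majorant hf1 hh hm
  obtain ⟨c, hc⟩ := kernel hGD (by
    intro v hv
    have h1 := congrFun h (psi v)
    rw [indicator_of_mem (psi_mem hv)] at h1
    simp only [Function.comp_apply, Pi.smul_apply, smul_eq_mul, phi, sigma_psi hv] at h1
    exact h1)
  refine ⟨c, ?_⟩
  funext z
  by_cases hz : z ∈ ball (0 : ℂ) 1
  · have h1 := hc _ (sigma_mem hz)
    simp only [psi_sigma hz] at h1
    simp only [Pi.smul_apply, smul_eq_mul, e₀]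
    rw [indicator_of_mem hz]
    exact h1
  · simp only [Pi.smul_apply, smul_eq_mul, e₀]
    rw [indicator_of_notMem hz, hf2 z hz, mul_zero]

theorem differentiableOn_e₀ : DifferentiableOn ℂ e₀ (ball 0 1) := by
  have h1 : DifferentiableOn ℂ (fun z => Complex.exp (-(b * sigma z))) (ball 0 1) :=
    ((differentiableOn_sigma.const_mul b).neg).cexp
  exact h1.congr fun z hz => indicator_of_mem hz _

theorem HS_e₀ : HS e₀ := by
  refine ⟨differentiableOn_e₀, fun z hz => indicator_of_notMem hz _, ?_⟩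
  refine ⟨_, fun r hr0 hr1 => mean_le_of_majorant (h := fun _ => 1) differentiableOn_e₀
    (differentiableOn_const _) ?_ hr0 hr1⟩
  intro z hz
  unfold e₀
  rw [indicator_of_mem hz, Complex.one_re]
  have e : -(b * sigma z) = b * (-sigma z) := by ring
  rw [e, norm_exp_b]
  have h1 := sigma_mem hz
  have h2 : Real.exp (3 / 2 * ((-sigma z).re + (-sigma z).im)) ≤ 1 := by
    rw [Real.exp_le_one_iff, Complex.neg_re, Complex.neg_im]
    linarith [h1.1, h1.2]
  exact pow_le_one₀ (Real.exp_pos _).le h2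

theorem eigen_e₀ : (ball (0 : ℂ) 1).indicator (e₀ ∘ phi) = μ • e₀ := by
  funext z
  by_cases hz : z ∈ ball (0 : ℂ) 1
  · simp only [Pi.smul_apply, smul_eq_mul]
    rw [indicator_of_mem hz, Function.comp_apply]
    unfold e₀
    rw [indicator_of_mem (phi_mem hz), indicator_of_mem hz, sigma_phi hz]
    have h5 := exp_b_τ
    have h6 : Complex.exp (-(b * (sigma z + τ))) * Complex.exp (b * τ) =
        Complex.exp (-(b * sigma z)) := by
      rw [← Complex.exp_add]; congr 1; ring
    rw [← h6]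
    linear_combination -Complex.exp (-(b * (sigma z + τ))) * h5
  · simp only [Pi.smul_apply, smul_eq_mul, e₀]
    rw [indicator_of_notMem hz, indicator_of_notMem hz, mul_zero]

theorem e₀_ne : e₀ ≠ 0 := by
  intro h
  have h1 := congrFun h 0
  unfold e₀ at h1
  rw [indicator_of_mem (by simp)] at h1
  exact Complex.exp_ne_zero _ h1

end Pool.Agent.Helper380.B7
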